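import Mathlib

set_option autoImplicit false

namespace Pool.Agent.H54B

open MeasureTheory Metric Set Filter Topology ENNReal

variable {n : ℕ}

theorem vol_closedBall (x : Fin n → ℝ) {r : ℝ} (hr : 0 < r) :
    volume (closedBall x r) = ENNReal.ofReal ((2 * r) ^ n) := by
  rw [Real.volume_pi_closedBall _ hr.le, Fintype.card_fin]

theorem vol_closedBall_pos (x : Fin n → ℝ) {r : ℝ} (hr : 0 < r) :
    0 < volume (closedBall x r) := by
  rw [vol_closedBall x hr]
  exact ENNReal.ofReal_pos.mpr (by positivity)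

theorem vol_closedBall_ne_top (x : Fin n → ℝ) (r : ℝ) :
    volume (closedBall x r) ≠ ∞ := measure_closedBall_lt_top.ne

theorem vol_closedBall_mul (x y : Fin n → ℝ) {r s : ℝ} (hr : 0 < r) (hs : 0 < s) :
    volume (closedBall x (s * r)) = ENNReal.ofReal (s ^ n) * volume (closedBall y r) := by
  rw [vol_closedBall x (by positivity), vol_closedBall y hr,
    ← ENNReal.ofReal_mul (by positivity)]
  congr 1
  ring

/-- Vitali covering bound. -/
theorem vitali_bound (T : Set ((Fin n → ℝ) × ℝ)) (R : ℝ) (hT : ∀ p ∈ T, 0 < p.2 ∧ p.2 ≤ R)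
    (B F : Set (Fin n → ℝ)) (hF : MeasurableSet F) (hB : ∀ p ∈ T, closedBall p.1 p.2 ⊆ B)
    (κ : ℝ≥0∞)
    (hκ : ∀ p ∈ T, volume (closedBall p.1 p.2) ≤ κ * volume (F ∩ closedBall p.1 p.2)) :
    volume (⋃ p ∈ T, closedBall p.1 p.2) ≤ ENNReal.ofReal (5 ^ n) * (κ * volume (F ∩ B)) := by
  obtain ⟨u, huT, hdisj, hcov⟩ := Vitali.exists_disjoint_subfamily_covering_enlargement_closedBall
    T (fun p => p.1) (fun p => p.2) R (fun p hp => (hT p hp).2) 5 (by norm_num)
  have hcount : u.Countable := by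
    apply hdisj.countable_of_nonempty_interior
    intro p hp
    have hpos := (hT p (huT hp)).1
    exact ⟨p.1, ball_subset_interior_closedBall (mem_ball_self hpos)⟩
  haveI : Countable u := hcount.to_subtype
  have h1 : (⋃ p ∈ T, closedBall p.1 p.2) ⊆ ⋃ b : u, closedBall b.1.1 (5 * b.1.2) := by
    intro x hx
    simp only [mem_iUnion] at hx ⊢
    obtain ⟨p, hp, hxp⟩ := hx
    obtain ⟨b, hb, hsub⟩ := hcov p hp
    exact ⟨⟨b, hb⟩, hsub hxp⟩
  calc volume (⋃ p ∈ T, closedBall p.1 p.2)
      ≤ volume (⋃ b : u, closedBall b.1.1 (5 * b.1.2)) := measure_mono h1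
    _ ≤ ∑' b : u, volume (closedBall b.1.1 (5 * b.1.2)) := measure_iUnion_le _
    _ = ∑' b : u, ENNReal.ofReal (5 ^ n) * volume (closedBall b.1.1 b.1.2) := by
        congr 1
        funext b
        exact vol_closedBall_mul _ _ (hT b.1 (huT b.2)).1 (by norm_num)
    _ ≤ ∑' b : u, ENNReal.ofReal (5 ^ n) * (κ * volume (F ∩ closedBall b.1.1 b.1.2)) := by
        apply ENNReal.tsum_le_tsum
        intro b
        gcongr
        exact hκ b.1 (huT b.2)
    _ = ENNReal.ofReal (5 ^ n) * (κ * ∑' b : u, volume (F ∩ closedBall b.1.1 b.1.2)) := by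
        rw [ENNReal.tsum_mul_left, ENNReal.tsum_mul_left]
    _ = ENNReal.ofReal (5 ^ n) * (κ * volume (⋃ b : u, F ∩ closedBall b.1.1 b.1.2)) := by
        rw [measure_iUnion]
        · intro b c hbc
          have := hdisj b.2 c.2 (fun h => hbc (Subtype.ext h))
          exact this.mono inter_subset_right inter_subset_right
        · intro b
          exact hF.inter isClosed_closedBall.measurableSet
    _ ≤ ENNReal.ofReal (5 ^ n) * (κ * volume (F ∩ B)) := by
        gcongr
        intro x hx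
        simp only [mem_iUnion] at hx
        obtain ⟨b, hb1, hb2⟩ := hx
        exact ⟨hb1, hB b.1 (huT b.2) hb2⟩

end Pool.Agent.H54B
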