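import Mathlib

set_option autoImplicit false

namespace Pool.Agent.H54B

open MeasureTheory Set Filter Topology ENNReal NNReal

/-- The closed cube in `ℝⁿ` with centre `c`, side length `2 r` and sides parallel to the axes. -/
def cube {n : ℕ} (c : Fin n → ℝ) (r : ℝ) : Set (Fin n → ℝ) := {x | ∀ i, |x i - c i| ≤ r}

/-- `N` is the quasi-norm (with value `∞` off the space) of a quasi-Banach function space over
the set `Q`. Functions are real valued on `ℝⁿ`, only their restriction to `Q`, up to null sets,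
matters; the space is the set of measurable `f` with `N f < ∞`. -/
structure IsQBFS {n : ℕ} (Q : Set (Fin n → ℝ)) (N : ((Fin n → ℝ) → ℝ) → ℝ≥0∞) : Prop where
  /-- ideal property and monotonicity; in particular `N` respects almost everywhere equality -/
  mono : ∀ f g : (Fin n → ℝ) → ℝ, AEMeasurable f (volume.restrict Q) →
    AEMeasurable g (volume.restrict Q) → (∀ᵐ x ∂(volume.restrict Q), |f x| ≤ |g x|) → N f ≤ N g
  /-- definiteness -/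
  eq_zero : ∀ f : (Fin n → ℝ) → ℝ, AEMeasurable f (volume.restrict Q) →
    (N f = 0 ↔ ∀ᵐ x ∂(volume.restrict Q), f x = 0)
  /-- homogeneity -/
  smul : ∀ (a : ℝ) (f : (Fin n → ℝ) → ℝ), AEMeasurable f (volume.restrict Q) →
    N (fun x => a * f x) = ENNReal.ofReal |a| * N f
  /-- quasi-triangle inequality -/
  add : ∃ K : ℝ≥0, ∀ f g : (Fin n → ℝ) → ℝ, AEMeasurable f (volume.restrict Q) →
    AEMeasurable g (volume.restrict Q) → N (fun x => f x + g x) ≤ K * (N f + N g)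
  /-- some function in the space is positive almost everywhere -/
  saturated : ∃ f : (Fin n → ℝ) → ℝ, AEMeasurable f (volume.restrict Q) ∧
    (∀ᵐ x ∂(volume.restrict Q), 0 < f x) ∧ N f < ∞
  /-- Fatou property -/
  fatou : ∀ (f : ℕ → (Fin n → ℝ) → ℝ) (g : (Fin n → ℝ) → ℝ),
    (∀ k, AEMeasurable (f k) (volume.restrict Q)) →
    (∀ᵐ x ∂(volume.restrict Q), ∀ k, 0 ≤ f k x ∧ f k x ≤ f (k + 1) x) →
    (∀ᵐ x ∂(volume.restrict Q), Tendsto (fun k => f k x) atTop (𝓝 (g x))) →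
    N g = ⨆ k, N (f k)
  /-- completeness -/
  complete : ∀ f : ℕ → (Fin n → ℝ) → ℝ, (∀ k, AEMeasurable (f k) (volume.restrict Q)) →
    (∀ k, N (f k) < ∞) →
    (∀ ε : ℝ≥0∞, 0 < ε → ∃ m, ∀ i j, m ≤ i → m ≤ j → N (fun x => f i x - f j x) ≤ ε) →
    ∃ g : (Fin n → ℝ) → ℝ, AEMeasurable g (volume.restrict Q) ∧ N g < ∞ ∧
      Tendsto (fun k => N (fun x => f k x - g x)) atTop (𝓝 0)

/-- `X c r` is, for every cube `cube c r`, the quasi-norm of a quasi-Banach function space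
over that cube. -/
def IsFamily {n : ℕ} (X : (Fin n → ℝ) → ℝ → ((Fin n → ℝ) → ℝ) → ℝ≥0∞) : Prop :=
  ∀ (c : Fin n → ℝ) (r : ℝ), 0 < r → IsQBFS (cube c r) (X c r)

/-- The family is normalized: the norm of the constant function `1` on the cube is bounded above
and below by positive constants, uniformly over all cubes. -/
def IsNormalized {n : ℕ} (X : (Fin n → ℝ) → ℝ → ((Fin n → ℝ) → ℝ) → ℝ≥0∞) : Prop :=
  ∃ a b : ℝ≥0, 0 < a ∧ ∀ (c : Fin n → ℝ) (r : ℝ), 0 < r →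
    (a : ℝ≥0∞) ≤ X c r (fun _ => 1) ∧ X c r (fun _ => 1) ≤ b

/-- The quasi-triangle inequality holds with one constant `K` for all cubes. -/
def UniformQuasi {n : ℕ} (X : (Fin n → ℝ) → ℝ → ((Fin n → ℝ) → ℝ) → ℝ≥0∞) (K : ℝ≥0) : Prop :=
  ∀ (c : Fin n → ℝ) (r : ℝ), 0 < r → ∀ f g : (Fin n → ℝ) → ℝ,
    AEMeasurable f (volume.restrict (cube c r)) → AEMeasurable g (volume.restrict (cube c r)) →
    X c r (fun x => f x + g x) ≤ K * (X c r f + X c r g)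

/-- Average of `f` over the cube. -/
noncomputable def avg {n : ℕ} (f : (Fin n → ℝ) → ℝ) (c : Fin n → ℝ) (r : ℝ) : ℝ :=
  (volume (cube c r)).toReal⁻¹ * ∫ x in cube c r, f x

/-- The classical `BMO` seminorm. -/
noncomputable def bmo {n : ℕ} (f : (Fin n → ℝ) → ℝ) : ℝ≥0∞ :=
  ⨆ (c : Fin n → ℝ) (r : ℝ) (_ : 0 < r),
    (∫⁻ x in cube c r, ENNReal.ofReal |f x - avg f c r|) / volume (cube c r)

/-- The `BMO_X` seminorm. -/
noncomputable def bmoX {n : ℕ} (X : (Fin n → ℝ) → ℝ → ((Fin n → ℝ) → ℝ) → ℝ≥0∞)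
    (f : (Fin n → ℝ) → ℝ) : ℝ≥0∞ :=
  ⨆ (c : Fin n → ℝ) (r : ℝ) (_ : 0 < r), X c r (fun x => f x - avg f c r)

/-- The `BMO*_X` seminorm. -/
noncomputable def bmoXStar {n : ℕ} (X : (Fin n → ℝ) → ℝ → ((Fin n → ℝ) → ℝ) → ℝ≥0∞)
    (f : (Fin n → ℝ) → ℝ) : ℝ≥0∞ :=
  ⨆ (c : Fin n → ℝ) (r : ℝ) (_ : 0 < r), ⨅ a : ℝ, X c r (fun x => f x - a)

/-- `BMO ↪ BMO_X` -/
def EmbBMO {n : ℕ} (X : (Fin n → ℝ) → ℝ → ((Fin n → ℝ) → ℝ) → ℝ≥0∞) : Prop :=
  ∃ C : ℝ≥0, ∀ f : (Fin n → ℝ) → ℝ, LocallyIntegrable f volume → bmo f < ∞ →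
    bmoX X f ≤ C * bmo f

/-- `BMO_X ↪ BMO` -/
def EmbBMOX {n : ℕ} (X : (Fin n → ℝ) → ℝ → ((Fin n → ℝ) → ℝ) → ℝ≥0∞) : Prop :=
  ∃ C : ℝ≥0, ∀ f : (Fin n → ℝ) → ℝ, LocallyIntegrable f volume → bmoX X f < ∞ →
    bmo f ≤ C * bmoX X f

/-- `BMO*_X ↪ BMO` -/
def EmbBMOXStar {n : ℕ} (X : (Fin n → ℝ) → ℝ → ((Fin n → ℝ) → ℝ) → ℝ≥0∞) : Prop :=
  ∃ C : ℝ≥0, ∀ f : (Fin n → ℝ) → ℝ, AEMeasurable f volume → bmoXStar X f < ∞ →
    LocallyIntegrable f volume ∧ bmo f ≤ C * bmoXStar X f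

end Pool.Agent.H54B
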