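import Mathlib
import Pool.Agent.H54B.Cover

set_option autoImplicit false

namespace Pool.Agent.H54B

open MeasureTheory Metric Set Filter Topology ENNReal

variable {n : ℕ}

theorem continuousAt_setIntegral_closedBall {f : (Fin n → ℝ) → ℝ} (hf : LocallyIntegrable f)
    {w : ℝ → (Fin n → ℝ)} {s : ℝ → ℝ} (hw : Continuous w) (hs : Continuous s) (t0 : ℝ)
    (h0 : 0 < s t0) :
    ContinuousAt (fun t => ∫ x in closedBall (w t) (s t), f x) t0 := by
  have hind : ∀ t, ∫ x in closedBall (w t) (s t), f x
      = ∫ x, (closedBall (w t) (s t)).indicator f x := by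
    intro t
    rw [integral_indicator isClosed_closedBall.measurableSet]
  simp only [hind]
  unfold ContinuousAt
  apply tendsto_integral_filter_of_dominated_convergence
    ((closedBall (w t0) (s t0 + 2)).indicator (fun x => ‖f x‖))
  · exact Eventually.of_forall fun t =>
      hf.aestronglyMeasurable.indicator isClosed_closedBall.measurableSet
  · have h1 : ∀ᶠ t in 𝓝 t0, dist (w t) (w t0) < 1 :=
      (hw.tendsto t0).eventually (ball_mem_nhds _ one_pos)
    have h2 : ∀ᶠ t in 𝓝 t0, s t < s t0 + 1 :=
      (hs.tendsto t0).eventually (Iio_mem_nhds (by linarith))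
    filter_upwards [h1, h2] with t ht1 ht2
    refine Eventually.of_forall fun x => ?_
    have hsub : closedBall (w t) (s t) ⊆ closedBall (w t0) (s t0 + 2) := by
      apply closedBall_subset_closedBall'
      linarith
    rw [norm_indicator_eq_indicator_norm]
    exact indicator_le_indicator_of_subset hsub (fun _ => norm_nonneg _) x
  · rw [integrable_indicator_iff isClosed_closedBall.measurableSet]
    exact (hf.integrableOn_isCompact (isCompact_closedBall _ _)).norm
  · have hsph : volume (sphere (w t0) (s t0)) = 0 := Measure.addHaar_sphere_of_ne_zero _ _ h0.ne'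
    have : ∀ᵐ x ∂(volume : Measure (Fin n → ℝ)), x ∉ sphere (w t0) (s t0) :=
      measure_eq_zero_iff_ae_notMem.mp hsph
    filter_upwards [this] with x hx
    rw [mem_sphere] at hx
    have hdc : Continuous (fun t => dist x (w t) - s t) :=
      (continuous_const.dist hw).sub hs
    rcases lt_or_gt_of_ne hx with h | h
    · have : ∀ᶠ t in 𝓝 t0, dist x (w t) - s t < 0 :=
        (hdc.tendsto t0).eventually (Iio_mem_nhds (by linarith))
      have h2 : ∀ᶠ t in 𝓝 t0, (closedBall (w t) (s t)).indicator f x = f x := by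
        filter_upwards [this] with t ht
        exact indicator_of_mem (mem_closedBall.mpr (by linarith)) _
      have h3 : (closedBall (w t0) (s t0)).indicator f x = f x :=
        indicator_of_mem (mem_closedBall.mpr h.le) _
      rw [h3]
      exact tendsto_const_nhds.congr' (EventuallyEq.symm h2)
    · have : ∀ᶠ t in 𝓝 t0, 0 < dist x (w t) - s t :=
        (hdc.tendsto t0).eventually (Ioi_mem_nhds (by linarith))
      have h2 : ∀ᶠ t in 𝓝 t0, (closedBall (w t) (s t)).indicator f x = 0 := by
        filter_upwards [this] with t ht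
        exact indicator_of_notMem (fun h' => by rw [mem_closedBall] at h'; linarith) _
      have h3 : (closedBall (w t0) (s t0)).indicator f x = 0 :=
        indicator_of_notMem (fun h' => by rw [mem_closedBall] at h'; linarith) _
      rw [h3]
      exact tendsto_const_nhds.congr' (EventuallyEq.symm h2)

theorem continuousAt_average {f : (Fin n → ℝ) → ℝ} (hf : LocallyIntegrable f)
    {w : ℝ → (Fin n → ℝ)} {s : ℝ → ℝ} (hw : Continuous w) (hs : Continuous s) (t0 : ℝ)
    (h0 : 0 < s t0) :
    ContinuousAt (fun t => ⨍ x in closedBall (w t) (s t), f x) t0 := by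
  have h1 : ContinuousAt (fun t => ((2 * s t) ^ n)⁻¹ • ∫ x in closedBall (w t) (s t), f x) t0 := by
    have ha : ContinuousAt (fun t => ((2 * s t) ^ n)⁻¹) t0 := by
      refine ContinuousAt.inv₀ ?_ (by positivity)
      fun_prop
    exact ha.smul (continuousAt_setIntegral_closedBall hf hw hs t0 h0)
  refine h1.congr ?_
  have : ∀ᶠ t in 𝓝 t0, 0 < s t := (hs.tendsto t0).eventually (Ioi_mem_nhds h0)
  filter_upwards [this] with t ht
  rw [setAverage_eq, measureReal_def, vol_closedBall _ ht, ENNReal.toReal_ofReal (by positivity)]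

/-- Intermediate value property of averages on cubes shrinking to a point. -/
theorem exists_average_eq {f : (Fin n → ℝ) → ℝ} (hf : LocallyIntegrable f) (y : Fin n → ℝ)
    {r : ℝ} (hr : 0 < r) :
    ∀ᵐ x ∂(volume : Measure (Fin n → ℝ)), x ∈ closedBall y r → ∀ v,
      (⨍ z in closedBall y r, f z) < v → v < f x →
      ∃ (c : Fin n → ℝ) (s : ℝ), 0 < s ∧ s ≤ r ∧ x ∈ closedBall c s ∧
        closedBall c s ⊆ closedBall y r ∧ (⨍ z in closedBall c s, f z) = v := by
  filter_upwards [IsUnifLocDoublingMeasure.ae_tendsto_average (volume : Measure (Fin n → ℝ)) hf 1]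
    with x hx hxy v hv1 hv2
  set w : ℝ → (Fin n → ℝ) := fun t => y + t • (x - y) with hw
  set s : ℝ → ℝ := fun t => (1 - t) * r with hs
  have hwc : Continuous w := by fun_prop
  have hsc : Continuous s := by fun_prop
  have hdist : dist x y ≤ r := mem_closedBall.mp hxy
  have hxmem : ∀ t, 0 ≤ t → t ≤ 1 → x ∈ closedBall (w t) (s t) := by
    intro t h0 h1
    rw [mem_closedBall, dist_eq_norm]
    have : x - w t = (1 - t) • (x - y) := by
      simp only [hw, sub_smul, one_smul]; abel
    rw [this, norm_smul, Real.norm_of_nonneg (by linarith), ← dist_eq_norm]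
    exact mul_le_mul_of_nonneg_left hdist (by linarith)
  have hsub : ∀ t, 0 ≤ t → t ≤ 1 → closedBall (w t) (s t) ⊆ closedBall y r := by
    intro t h0 h1
    apply closedBall_subset_closedBall'
    have : dist (w t) y = t * dist x y := by
      rw [dist_eq_norm, dist_eq_norm]
      simp only [hw, add_sub_cancel_left]
      rw [norm_smul, Real.norm_of_nonneg h0]
    rw [this]
    simp only [hs]
    nlinarith
  have hlim : Tendsto (fun t => ⨍ z in closedBall (w t) (s t), f z) (𝓝[<] (1 : ℝ)) (𝓝 (f x)) := by
    apply hx w s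
    · rw [tendsto_nhdsWithin_iff]
      refine ⟨?_, ?_⟩
      · have : Tendsto s (𝓝 1) (𝓝 (s 1)) := hsc.tendsto 1
        simp only [hs, sub_self, zero_mul] at this
        exact this.mono_left nhdsWithin_le_nhds
      · filter_upwards [self_mem_nhdsWithin] with t ht
        have : t < 1 := ht
        exact mul_pos (by linarith) hr
    · have : ∀ᶠ t in 𝓝[<] (1 : ℝ), 0 < t :=
        nhdsWithin_le_nhds (Ioi_mem_nhds one_pos)
      filter_upwards [self_mem_nhdsWithin, this] with t ht ht'
      rw [one_mul]
      exact hxmem t ht'.le (le_of_lt ht)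
  have h1 : ∀ᶠ t in 𝓝[<] (1 : ℝ), v < ⨍ z in closedBall (w t) (s t), f z :=
    hlim.eventually (Ioi_mem_nhds hv2)
  have h2 : ∀ᶠ t in 𝓝[<] (1 : ℝ), 0 < t := nhdsWithin_le_nhds (Ioi_mem_nhds one_pos)
  obtain ⟨t1, ⟨ht1, ht1'⟩, ht1''⟩ := ((h1.and h2).and self_mem_nhdsWithin).exists
  have ht1'' : t1 < 1 := ht1''
  have hcont : ContinuousOn (fun t => ⨍ z in closedBall (w t) (s t), f z) (Icc 0 t1) := by
    intro t ht
    apply ContinuousAt.continuousWithinAt
    apply continuousAt_average hf hwc hsc
    exact mul_pos (by linarith [ht.2]) hr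
  have h0 : (⨍ z in closedBall (w 0) (s 0), f z) = ⨍ z in closedBall y r, f z := by
    simp [hw, hs]
  obtain ⟨t, ht, htv⟩ := intermediate_value_Icc ht1'.le hcont
    (show v ∈ Icc (⨍ z in closedBall (w 0) (s 0), f z) (⨍ z in closedBall (w t1) (s t1), f z) from
      ⟨by rw [h0]; exact hv1.le, ht1.le⟩)
  refine ⟨w t, s t, mul_pos (by linarith [ht.2]) hr, ?_, hxmem t ht.1 (by linarith [ht.2]),
    hsub t ht.1 (by linarith [ht.2]), htv⟩
  simp only [hs]
  nlinarith [ht.1]

/-- The distribution estimate. -/
theorem distr {f : (Fin n → ℝ) → ℝ} (hf : LocallyIntegrable f) (hm : Measurable f)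
    (l : ℝ) (κ : ℝ≥0∞)
    (h : ∀ (y : Fin n → ℝ) (r : ℝ), 0 < r → volume (closedBall y r) ≤
      κ * volume ({x | |f x - ⨍ z in closedBall y r, f z| ≤ l} ∩ closedBall y r))
    (y : Fin n → ℝ) {r : ℝ} (hr : 0 < r) (v : ℝ) (hv : (⨍ z in closedBall y r, f z) < v) :
    volume ({x | v < f x} ∩ closedBall y r) ≤
      ENNReal.ofReal (5 ^ n) * (κ * volume ({x | |f x - v| ≤ l} ∩ closedBall y r)) := by
  let T : Set ((Fin n → ℝ) × ℝ) := {p | 0 < p.2 ∧ p.2 ≤ r ∧ closedBall p.1 p.2 ⊆ closedBall y r ∧
    (⨍ z in closedBall p.1 p.2, f z) = v}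
  have hsub : volume ({x | v < f x} ∩ closedBall y r) ≤ volume (⋃ p ∈ T, closedBall p.1 p.2) := by
    apply measure_mono_ae
    filter_upwards [exists_average_eq hf y hr] with x hx hxm
    obtain ⟨c, s, h1, h2, h3, h4, h5⟩ := hx hxm.2 v hv hxm.1
    exact mem_iUnion₂.mpr ⟨(c, s), ⟨h1, h2, h4, h5⟩, h3⟩
  refine hsub.trans ?_
  apply vitali_bound T r (fun p hp => ⟨hp.1, hp.2.1⟩)
  · exact measurableSet_le ((hm.sub_const v).abs) measurable_const
  · exact fun p hp => hp.2.2.1
  · intro p hp
    have := h p.1 p.2 hp.1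
    rwa [hp.2.2.2] at this

/-- The real-variable theorem, positive part. -/
theorem pos_part {f : (Fin n → ℝ) → ℝ} (hf : LocallyIntegrable f) (hm : Measurable f)
    {l : ℝ} (hl : 0 ≤ l) (κ : ℝ≥0∞)
    (h : ∀ (y : Fin n → ℝ) (r : ℝ), 0 < r → volume (closedBall y r) ≤
      κ * volume ({x | |f x - ⨍ z in closedBall y r, f z| ≤ l} ∩ closedBall y r))
    (y : Fin n → ℝ) {r : ℝ} (hr : 0 < r) :
    ∫⁻ x in closedBall y r, ENNReal.ofReal (f x - ⨍ z in closedBall y r, f z) ≤
      ENNReal.ofReal (5 ^ n) * (κ * (ENNReal.ofReal (2 * l) * volume (closedBall y r))) := by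
  set m := ⨍ z in closedBall y r, f z with hmdef
  set B := closedBall y r with hB
  have hBm : MeasurableSet B := isClosed_closedBall.measurableSet
  have e1 : ∫⁻ x in B, ENNReal.ofReal (f x - m) =
      ∫⁻ t in Ioi (0 : ℝ), (volume.restrict B) {a | t < max (f a - m) 0} := by
    have := lintegral_eq_lintegral_meas_lt (f := fun a => max (f a - m) 0) (volume.restrict B)
      (Eventually.of_forall fun x => le_max_right _ _)
      (((hm.sub_const m).max measurable_const).aemeasurable)
    rw [← this]
    apply lintegral_congr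
    intro x
    rcases le_total (f x - m) 0 with hx | hx
    · rw [max_eq_right hx, ENNReal.ofReal_of_nonpos hx, ENNReal.ofReal_zero]
    · rw [max_eq_left hx]
  rw [e1]
  let S : Set (ℝ × (Fin n → ℝ)) := {p | |f p.2 - (m + p.1)| ≤ l}
  have hS : MeasurableSet S := by
    apply measurableSet_le _ measurable_const
    exact ((hm.comp measurable_snd).sub (measurable_const.add measurable_fst)).abs
  calc ∫⁻ t in Ioi (0 : ℝ), (volume.restrict B) {a | t < max (f a - m) 0}
      ≤ ∫⁻ t in Ioi (0 : ℝ), ENNReal.ofReal (5 ^ n) *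
          (κ * (volume.restrict B) (Prod.mk t ⁻¹' S)) := by
        apply setLIntegral_mono' measurableSet_Ioi
        intro t ht
        have ht0 : 0 < t := ht
        have h1 : {a | t < max (f a - m) 0} = {a | m + t < f a} := by
          ext a
          simp only [mem_ofPred_eq, lt_max_iff]
          constructor
          · rintro (h | h) <;> linarith
          · intro h; left; linarith
        rw [h1, Measure.restrict_apply (measurableSet_lt measurable_const hm),
          Measure.restrict_apply (measurable_prodMk_left hS)]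
        exact distr hf hm l κ h y hr (m + t) (by linarith)
    _ ≤ ∫⁻ t : ℝ, ENNReal.ofReal (5 ^ n) * (κ * (volume.restrict B) (Prod.mk t ⁻¹' S)) :=
        setLIntegral_le_lintegral _ _
    _ = ENNReal.ofReal (5 ^ n) * (κ * ∫⁻ t : ℝ, (volume.restrict B) (Prod.mk t ⁻¹' S)) := by
        rw [lintegral_const_mul, lintegral_const_mul]
        · exact measurable_measure_prodMk_left hS
        · exact (measurable_measure_prodMk_left hS).const_mul _
    _ = ENNReal.ofReal (5 ^ n) * (κ * (volume.prod (volume.restrict B)) S) := by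
        rw [Measure.prod_apply hS]
    _ = ENNReal.ofReal (5 ^ n) * (κ * ∫⁻ x in B, volume ((fun t => (t, x)) ⁻¹' S)) := by
        rw [Measure.prod_apply_symm hS]
    _ = ENNReal.ofReal (5 ^ n) * (κ * (ENNReal.ofReal (2 * l) * volume B)) := by
        congr 2
        have : ∀ x, volume ((fun t : ℝ => (t, x)) ⁻¹' S) = ENNReal.ofReal (2 * l) := by
          intro x
          have : (fun t : ℝ => (t, x)) ⁻¹' S = closedBall (f x - m) l := by
            ext t
            simp only [S, mem_preimage, mem_ofPred_eq, mem_closedBall, Real.dist_eq]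
            rw [abs_sub_comm t]
            congr! 2
            ring
          rw [this, Real.volume_closedBall]
        simp only [this]
        rw [setLIntegral_const]

/-- The real-variable theorem. -/
theorem real_var {f : (Fin n → ℝ) → ℝ} (hf : LocallyIntegrable f) (hm : Measurable f)
    {l : ℝ} (hl : 0 ≤ l) (κ : ℝ≥0∞)
    (h : ∀ (y : Fin n → ℝ) (r : ℝ), 0 < r → volume (closedBall y r) ≤
      κ * volume ({x | |f x - ⨍ z in closedBall y r, f z| ≤ l} ∩ closedBall y r))
    (y : Fin n → ℝ) {r : ℝ} (hr : 0 < r) :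
    ∫⁻ x in closedBall y r, ‖f x - ⨍ z in closedBall y r, f z‖ₑ ≤
      2 * (ENNReal.ofReal (5 ^ n) * (κ * (ENNReal.ofReal (2 * l) * volume (closedBall y r)))) := by
  have h1 := pos_part hf hm hl κ h y hr
  have hneg : ∀ (y : Fin n → ℝ) (r : ℝ), (⨍ z in closedBall y r, (-f) z) =
      -⨍ z in closedBall y r, f z := by
    intro y r
    simp only [Pi.neg_apply]
    rw [setAverage_eq, setAverage_eq, integral_neg, smul_neg]
  have h2 := pos_part (f := -f) hf.neg hm.neg hl κ (by
    intro y r hr
    have hset : {x | |(-f) x - ⨍ z in closedBall y r, (-f) z| ≤ l} =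
        {x | |f x - ⨍ z in closedBall y r, f z| ≤ l} := by
      ext x
      rw [mem_ofPred_eq, mem_ofPred_eq, hneg, Pi.neg_apply, neg_sub_neg, abs_sub_comm]
    rw [hset]
    exact h y r hr) y hr
  rw [hneg] at h2
  have h3 : ∀ x, ‖f x - ⨍ z in closedBall y r, f z‖ₑ =
      ENNReal.ofReal (f x - ⨍ z in closedBall y r, f z) +
      ENNReal.ofReal ((-f) x - -⨍ z in closedBall y r, f z) := by
    intro x
    rw [Real.enorm_eq_ofReal_abs]
    rcases le_total (f x - ⨍ z in closedBall y r, f z) 0 with hx | hx
    · rw [abs_of_nonpos hx, ENNReal.ofReal_of_nonpos hx, zero_add]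
      congr 1
      simp only [Pi.neg_apply]; ring
    · rw [abs_of_nonneg hx, ENNReal.ofReal_of_nonpos (p := (-f) x - _), add_zero]
      simp only [Pi.neg_apply]; linarith
  simp only [h3]
  rw [lintegral_add_left]
  · rw [two_mul]
    exact add_le_add h1 h2
  · exact (hm.sub_const _).ennreal_ofReal

end Pool.Agent.H54B
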