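import Mathlib
import Pool.Agent.H54B.Cover

set_option autoImplicit false

namespace Pool.Agent.H54B

open MeasureTheory Metric Set Filter Topology ENNReal

variable {n : ℕ}

/-- Superlevel sets of the maximal function of the indicator of `E`. -/
def O (E : Set (Fin n → ℝ)) (k : ℕ) : Set (Fin n → ℝ) :=
  {x | ∃ (c : Fin n → ℝ) (s : ℝ), 0 < s ∧ x ∈ ball c s ∧
    volume (closedBall c s) < 2 ^ k * volume (E ∩ closedBall c s)}

theorem isOpen_O (E : Set (Fin n → ℝ)) (k : ℕ) : IsOpen (O E k) := by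
  rw [isOpen_iff_mem_nhds]
  rintro x ⟨c, s, hs, hx, h⟩
  filter_upwards [isOpen_ball.mem_nhds hx] with y hy
  exact ⟨c, s, hs, hy, h⟩

theorem O_zero (E : Set (Fin n → ℝ)) : O E 0 = ∅ := by
  rw [eq_empty_iff_forall_notMem]
  rintro x ⟨c, s, hs, hx, h⟩
  rw [pow_zero, one_mul] at h
  exact absurd (measure_mono inter_subset_right) (not_le.mpr h)

theorem weak_type (E : Set (Fin n → ℝ)) (hE : MeasurableSet E) (z : Fin n → ℝ) {s : ℝ}
    (hs : 0 < s) (x0 : Fin n → ℝ) (hx0 : x0 ∈ closedBall z s) (K : ℕ)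
    (H : ∀ (c : Fin n → ℝ) (t : ℝ), s ≤ t → x0 ∈ ball c t →
      2 ^ K * volume (E ∩ closedBall c t) ≤ volume (closedBall c t)) (j : ℕ) :
    2 ^ K * volume (O E j ∩ closedBall z s) ≤
      ENNReal.ofReal (20 ^ n) * 2 ^ j * volume (closedBall z s) := by
  rcases le_or_gt ((2 : ℝ≥0∞) ^ K) (ENNReal.ofReal (20 ^ n) * 2 ^ j) with h1 | h1
  · calc 2 ^ K * volume (O E j ∩ closedBall z s) ≤ 2 ^ K * volume (closedBall z s) := by
          gcongr; exact inter_subset_right
      _ ≤ _ := by gcongr
  · let T : Set ((Fin n → ℝ) × ℝ) := {p | 0 < p.2 ∧ p.2 ≤ s ∧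
      closedBall p.1 p.2 ⊆ closedBall z (3 * s) ∧
      volume (closedBall p.1 p.2) < 2 ^ j * volume (E ∩ closedBall p.1 p.2)}
    have hsub : O E j ∩ closedBall z s ⊆ ⋃ p ∈ T, closedBall p.1 p.2 := by
      rintro x ⟨⟨c, t, ht, hxt, hlt⟩, hxz⟩
      have hts : t < s := by
        by_contra hcon
        push Not at hcon
        have hx0c : x0 ∈ ball c (3 * t) := by
          rw [mem_ball]
          have a1 : dist x0 z ≤ s := mem_closedBall.mp hx0
          have a2 : dist x z ≤ s := mem_closedBall.mp hxz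
          have a3 : dist x c < t := mem_ball.mp hxt
          have a4 : dist x0 c ≤ dist x0 z + dist z x + dist x c := dist_triangle4 _ _ _ _
          rw [dist_comm z x] at a4
          linarith
        have h3 := H c (3 * t) (by linarith) hx0c
        rw [vol_closedBall_mul c c ht (by norm_num : (0 : ℝ) < 3)] at h3
        have hmono : volume (E ∩ closedBall c t) ≤ volume (E ∩ closedBall c (3 * t)) :=
          measure_mono (inter_subset_inter_right _ (closedBall_subset_closedBall (by linarith)))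
        have h4 : 2 ^ K * volume (E ∩ closedBall c t) <
            ENNReal.ofReal (3 ^ n) * (2 ^ j * volume (E ∩ closedBall c t)) := by
          calc 2 ^ K * volume (E ∩ closedBall c t)
              ≤ 2 ^ K * volume (E ∩ closedBall c (3 * t)) := by gcongr
            _ ≤ ENNReal.ofReal (3 ^ n) * volume (closedBall c t) := h3
            _ < ENNReal.ofReal (3 ^ n) * (2 ^ j * volume (E ∩ closedBall c t)) := by
                apply ENNReal.mul_lt_mul_right
                · exact (ENNReal.ofReal_pos.mpr (by positivity)).ne'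
                · exact ENNReal.ofReal_ne_top
                · exact hlt
        have h5 : ENNReal.ofReal (3 ^ n) * (2 ^ j * volume (E ∩ closedBall c t)) ≤
            2 ^ K * volume (E ∩ closedBall c t) := by
          rw [← mul_assoc]
          gcongr
          refine le_trans ?_ h1.le
          gcongr
          norm_num
        exact absurd h4 (not_lt.mpr h5)
      refine mem_iUnion₂.mpr ⟨(c, t), ⟨ht, hts.le, ?_, hlt⟩, ball_subset_closedBall hxt⟩
      apply closedBall_subset_closedBall'
      have a2 : dist x z ≤ s := mem_closedBall.mp hxz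
      have a3 : dist x c < t := mem_ball.mp hxt
      have a4 : dist c z ≤ dist c x + dist x z := dist_triangle _ _ _
      rw [dist_comm c x] at a4
      linarith
    have hv := vitali_bound T s (fun p hp => ⟨hp.1, hp.2.1⟩) (closedBall z (3 * s)) E hE
      (fun p hp => hp.2.2.1) (2 ^ j) (fun p hp => hp.2.2.2.le)
    have hx0z : x0 ∈ ball z (4 * s) := by
      rw [mem_ball]
      have a1 : dist x0 z ≤ s := mem_closedBall.mp hx0
      linarith
    have h4 := H z (4 * s) (by linarith) hx0z
    rw [vol_closedBall_mul z z hs (by norm_num : (0 : ℝ) < 4)] at h4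
    have hmono : volume (E ∩ closedBall z (3 * s)) ≤ volume (E ∩ closedBall z (4 * s)) :=
      measure_mono (inter_subset_inter_right _ (closedBall_subset_closedBall (by linarith)))
    calc 2 ^ K * volume (O E j ∩ closedBall z s)
        ≤ 2 ^ K * (ENNReal.ofReal (5 ^ n) * (2 ^ j * volume (E ∩ closedBall z (4 * s)))) := by
          gcongr
          exact (measure_mono hsub).trans (hv.trans (by gcongr))
      _ = ENNReal.ofReal (5 ^ n) * 2 ^ j * (2 ^ K * volume (E ∩ closedBall z (4 * s))) := by ring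
      _ ≤ ENNReal.ofReal (5 ^ n) * 2 ^ j * (ENNReal.ofReal (4 ^ n) * volume (closedBall z s)) := by
          gcongr
      _ = ENNReal.ofReal (20 ^ n) * 2 ^ j * volume (closedBall z s) := by
          have : ENNReal.ofReal (20 ^ n) = ENNReal.ofReal (5 ^ n) * ENNReal.ofReal (4 ^ n) := by
            rw [← ENNReal.ofReal_mul (by positivity), ← mul_pow]
            norm_num
          rw [this]; ring

theorem sum_weak (E : Set (Fin n → ℝ)) (hE : MeasurableSet E) (z : Fin n → ℝ) {s : ℝ}
    (hs : 0 < s) (x0 : Fin n → ℝ) (hx0 : x0 ∈ closedBall z s) (K : ℕ)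
    (H : ∀ (c : Fin n → ℝ) (t : ℝ), s ≤ t → x0 ∈ ball c t →
      2 ^ K * volume (E ∩ closedBall c t) ≤ volume (closedBall c t)) :
    ∑ j ∈ Finset.Icc 1 K, volume (O E j ∩ closedBall z s) ≤
      ENNReal.ofReal (2 * 20 ^ n) * volume (closedBall z s) := by
  have h2K : (2 : ℝ≥0∞) ^ K ≠ 0 := by positivity
  have h2K' : (2 : ℝ≥0∞) ^ K ≠ ∞ := ENNReal.pow_ne_top (by norm_num)
  rw [← ENNReal.mul_le_mul_iff_right h2K h2K']
  calc 2 ^ K * ∑ j ∈ Finset.Icc 1 K, volume (O E j ∩ closedBall z s)
      = ∑ j ∈ Finset.Icc 1 K, 2 ^ K * volume (O E j ∩ closedBall z s) := Finset.mul_sum _ _ _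
    _ ≤ ∑ j ∈ Finset.Icc 1 K, ENNReal.ofReal (20 ^ n) * 2 ^ j * volume (closedBall z s) :=
        Finset.sum_le_sum fun j _ => weak_type E hE z hs x0 hx0 K H j
    _ = ENNReal.ofReal (20 ^ n) * volume (closedBall z s) * ∑ j ∈ Finset.Icc 1 K, 2 ^ j := by
        rw [Finset.mul_sum]
        apply Finset.sum_congr rfl
        intro j _
        ring
    _ ≤ ENNReal.ofReal (20 ^ n) * volume (closedBall z s) * (2 * 2 ^ K) := by
        gcongr
        have : ∀ K : ℕ, ∑ j ∈ Finset.Icc 1 K, (2 : ℝ≥0∞) ^ j ≤ 2 * 2 ^ K := by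
          intro K
          induction K with
          | zero => simp
          | succ K ih =>
            rw [Finset.sum_Icc_succ_top (by omega)]
            calc ∑ k ∈ Finset.Icc 1 K, (2 : ℝ≥0∞) ^ k + 2 ^ (K + 1)
                ≤ 2 * 2 ^ K + 2 ^ (K + 1) := by gcongr
              _ = 2 * 2 ^ (K + 1) := by ring
        exact this K
    _ = 2 ^ K * (ENNReal.ofReal (2 * 20 ^ n) * volume (closedBall z s)) := by
        rw [ENNReal.ofReal_mul (by norm_num)]
        norm_num
        ring

/-- The test function: large on `E`. -/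
noncomputable def phi (E : Set (Fin n → ℝ)) (K : ℕ) (x : Fin n → ℝ) : ℝ :=
  ∑ j ∈ Finset.Icc 1 K, (O E j).indicator (fun _ => (1 : ℝ)) x

theorem measurable_phi (E : Set (Fin n → ℝ)) (K : ℕ) : Measurable (phi E K) := by
  unfold phi
  exact Finset.measurable_sum _ fun j _ =>
    measurable_const.indicator (isOpen_O E j).measurableSet

theorem phi_nonneg (E : Set (Fin n → ℝ)) (K : ℕ) (x : Fin n → ℝ) : 0 ≤ phi E K x :=
  Finset.sum_nonneg fun _ _ => indicator_nonneg (fun _ _ => zero_le_one) _

theorem phi_le (E : Set (Fin n → ℝ)) (K : ℕ) (x : Fin n → ℝ) : phi E K x ≤ K := by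
  calc phi E K x ≤ ∑ j ∈ Finset.Icc 1 K, (1 : ℝ) :=
        Finset.sum_le_sum fun j _ => indicator_le_self' (fun _ _ => zero_le_one) _
    _ = K := by simp

theorem locallyIntegrable_phi (E : Set (Fin n → ℝ)) (K : ℕ) : LocallyIntegrable (phi E K) := by
  have h : LocallyIntegrable (fun _ : Fin n → ℝ => (K : ℝ)) volume := locallyIntegrable_const _
  refine h.mono (measurable_phi E K).aestronglyMeasurable (Eventually.of_forall fun x => ?_)
  rw [Real.norm_of_nonneg (phi_nonneg E K x), Real.norm_of_nonneg (Nat.cast_nonneg K)]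
  exact phi_le E K x

theorem phi_eq_on_E (E : Set (Fin n → ℝ)) (K : ℕ) :
    ∀ᵐ x ∂(volume.restrict E), phi E K x = K := by
  filter_upwards [IsUnifLocDoublingMeasure.ae_tendsto_measure_inter_div
    (volume : Measure (Fin n → ℝ)) E 1] with x hx
  have hδ : Tendsto (fun j : ℕ => (1 : ℝ) / (j + 1)) atTop (𝓝[>] 0) := by
    rw [tendsto_nhdsWithin_iff]
    exact ⟨tendsto_one_div_add_atTop_nhds_zero_nat, Eventually.of_forall fun j => by
      rw [mem_Ioi]; positivity⟩
  have hlim := hx (fun _ : ℕ => x) (fun j : ℕ => (1 : ℝ) / (j + 1)) hδ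
    (Eventually.of_forall fun j => mem_closedBall_self (by positivity))
  have hhalf : ∀ᶠ j : ℕ in atTop, (1 / 2 : ℝ≥0∞) <
      volume (E ∩ closedBall x (1 / ((j : ℝ) + 1))) / volume (closedBall x (1 / ((j : ℝ) + 1))) :=
    hlim.eventually (Ioi_mem_nhds (by norm_num))
  obtain ⟨j, hj⟩ := hhalf.exists
  have hpos : (0 : ℝ) < 1 / ((j : ℝ) + 1) := by positivity
  have hmem : ∀ k ∈ Finset.Icc 1 K, (O E k).indicator (fun _ => (1 : ℝ)) x = 1 := by
    intro k hk
    rw [Finset.mem_Icc] at hk
    apply indicator_of_mem (f := fun _ => (1 : ℝ))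
    refine ⟨x, 1 / ((j : ℝ) + 1), hpos, mem_ball_self hpos, ?_⟩
    rw [ENNReal.lt_div_iff_mul_lt (Or.inl (vol_closedBall_pos x hpos).ne')
      (Or.inl (vol_closedBall_ne_top x _))] at hj
    have h2 : volume (closedBall x (1 / ((j : ℝ) + 1))) <
        2 * volume (E ∩ closedBall x (1 / ((j : ℝ) + 1))) := by
      have := ENNReal.mul_lt_mul_right (a := 2) (by norm_num) (by norm_num) hj
      rwa [← mul_assoc, ENNReal.mul_div_cancel (by norm_num) (by norm_num), one_mul] at this
    refine h2.trans_le ?_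
    gcongr
    calc (2 : ℝ≥0∞) = 2 ^ 1 := (pow_one _).symm
      _ ≤ 2 ^ k := pow_le_pow_right₀ (by norm_num) hk.1
  unfold phi
  rw [Finset.sum_congr rfl hmem]
  simp

theorem lintegral_sum_ind (E : Set (Fin n → ℝ)) (K : ℕ) (B : Set (Fin n → ℝ)) :
    ∫⁻ x in B, ENNReal.ofReal (∑ j ∈ Finset.Icc 1 K, (O E j).indicator (fun _ => (1 : ℝ)) x) =
      ∑ j ∈ Finset.Icc 1 K, volume (O E j ∩ B) := by
  have h1 : ∀ x, ENNReal.ofReal (∑ j ∈ Finset.Icc 1 K, (O E j).indicator (fun _ => (1 : ℝ)) x) =
      ∑ j ∈ Finset.Icc 1 K, (O E j).indicator (fun _ => (1 : ℝ≥0∞)) x := by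
    intro x
    rw [ENNReal.ofReal_sum_of_nonneg
      (fun _ _ => indicator_nonneg (fun _ _ => zero_le_one) _)]
    apply Finset.sum_congr rfl
    intro j _
    by_cases hx : x ∈ O E j
    · rw [indicator_of_mem hx, indicator_of_mem hx, ENNReal.ofReal_one]
    · rw [indicator_of_notMem hx, indicator_of_notMem hx, ENNReal.ofReal_zero]
  simp only [h1]
  rw [lintegral_finsetSum _ (fun j _ => measurable_const.indicator (isOpen_O E j).measurableSet)]
  apply Finset.sum_congr rfl
  intro j _
  rw [lintegral_indicator (isOpen_O E j).measurableSet, lintegral_one, Measure.restrict_apply_univ,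
    Measure.restrict_apply (isOpen_O E j).measurableSet]

theorem phi_bmo (E : Set (Fin n → ℝ)) (hE : MeasurableSet E) (K : ℕ) (z : Fin n → ℝ) {s : ℝ}
    (hs : 0 < s) : ∃ a : ℝ, ∫⁻ x in closedBall z s, ‖phi E K x - a‖ₑ ≤
      ENNReal.ofReal (2 * 20 ^ n) * volume (closedBall z s) := by
  classical
  set P : ℕ → Prop := fun k => ¬ closedBall z s ⊆ O E k with hP
  have hP0 : P 0 := by
    rw [hP]
    simp only
    rw [O_zero, subset_empty_iff, closedBall_eq_empty]
    exact not_lt.mpr hs.le
  set k1 := Nat.findGreatest P K with hk1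
  have hk1K : k1 ≤ K := Nat.findGreatest_le K
  have hPk : P k1 := Nat.findGreatest_spec (Nat.zero_le K) hP0
  have hgt : ∀ k, k1 < k → k ≤ K → closedBall z s ⊆ O E k := by
    intro k h1 h2
    have := Nat.findGreatest_is_greatest h1 h2
    simpa [hP] using this
  obtain ⟨x0, hx0, hx0'⟩ := Set.not_subset.mp hPk
  have hH : ∀ (c : Fin n → ℝ) (t : ℝ), s ≤ t → x0 ∈ ball c t →
      2 ^ k1 * volume (E ∩ closedBall c t) ≤ volume (closedBall c t) := by
    intro c t hst hx
    by_contra hcon
    push Not at hcon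
    exact hx0' ⟨c, t, by linarith, hx, hcon⟩
  have hsum := sum_weak E hE z hs x0 hx0 k1 hH
  refine ⟨((K - k1 : ℕ) : ℝ), ?_⟩
  have hval : ∀ x ∈ closedBall z s, ‖phi E K x - ((K - k1 : ℕ) : ℝ)‖ₑ =
      ENNReal.ofReal (∑ j ∈ Finset.Icc 1 k1, (O E j).indicator (fun _ => (1 : ℝ)) x) := by
    intro x hx
    have hsplit : phi E K x = ∑ j ∈ Finset.Icc 1 k1, (O E j).indicator (fun _ => (1 : ℝ)) x +
        ((K - k1 : ℕ) : ℝ) := by
      unfold phi
      have hun : Finset.Icc 1 K = Finset.Icc 1 k1 ∪ Finset.Ioc k1 K := by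
        ext j
        simp only [Finset.mem_Icc, Finset.mem_union, Finset.mem_Ioc]
        omega
      rw [hun, Finset.sum_union]
      · congr 1
        have : ∀ j ∈ Finset.Ioc k1 K, (O E j).indicator (fun _ => (1 : ℝ)) x = 1 := by
          intro j hj
          rw [Finset.mem_Ioc] at hj
          exact indicator_of_mem (hgt j hj.1 hj.2 hx) _
        rw [Finset.sum_congr rfl this]
        simp
      · rw [Finset.disjoint_left]
        intro j h1 h2
        rw [Finset.mem_Icc] at h1
        rw [Finset.mem_Ioc] at h2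
        omega
    rw [hsplit, add_sub_cancel_right, Real.enorm_of_nonneg]
    exact Finset.sum_nonneg fun _ _ => indicator_nonneg (fun _ _ => zero_le_one) _
  rw [setLIntegral_congr_fun isClosed_closedBall.measurableSet hval, lintegral_sum_ind]
  exact hsum

theorem phi_avg (E : Set (Fin n → ℝ)) (hE : MeasurableSet E) (K : ℕ) (y : Fin n → ℝ) {r : ℝ}
    (hr : 0 < r) (hEK : 2 ^ K * volume E ≤ volume (closedBall y r)) :
    ∫⁻ x in closedBall y r, ENNReal.ofReal (phi E K x) ≤
      ENNReal.ofReal (2 * 20 ^ n) * volume (closedBall y r) := by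
  unfold phi
  rw [lintegral_sum_ind]
  apply sum_weak E hE y hr y (mem_closedBall_self hr.le) K
  intro c t hrt _
  calc 2 ^ K * volume (E ∩ closedBall c t) ≤ 2 ^ K * volume E := by
        gcongr; exact inter_subset_left
    _ ≤ volume (closedBall y r) := hEK
    _ ≤ volume (closedBall c t) := by
        rw [vol_closedBall y hr, vol_closedBall c (by linarith)]
        apply ENNReal.ofReal_le_ofReal
        gcongr

end Pool.Agent.H54B
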