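import Mathlib
import Pool.Agent.H54B.Defs
import Pool.Agent.H54B.Cover
import Pool.Agent.H54B.RealVar
import Pool.Agent.H54B.SmallSet

set_option autoImplicit false

namespace Pool.Agent.H54B

open MeasureTheory Metric Set Filter Topology ENNReal NNReal

variable {n : ℕ}

theorem cube_eq (c : Fin n → ℝ) {r : ℝ} (hr : 0 < r) : cube c r = closedBall c r := by
  ext x
  rw [mem_closedBall, dist_pi_le_iff hr.le]
  simp only [cube, mem_ofPred_eq, Real.dist_eq]

theorem avg_eq (f : (Fin n → ℝ) → ℝ) (c : Fin n → ℝ) {r : ℝ} (hr : 0 < r) :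
    avg f c r = ⨍ x in closedBall c r, f x := by
  unfold avg
  rw [cube_eq c hr, setAverage_eq, measureReal_def, smul_eq_mul]

theorem avg_congr {f g : (Fin n → ℝ) → ℝ} (h : f =ᵐ[volume] g) (c : Fin n → ℝ) (r : ℝ) :
    avg f c r = avg g c r := by
  unfold avg
  congr 1
  exact setIntegral_congr_ae₀ (by
    exact MeasurableSet.nullMeasurableSet (by
      have : cube c r = ⋂ i, {x : Fin n → ℝ | |x i - c i| ≤ r} := by
        ext x; simp [cube]
      rw [this]
      exact MeasurableSet.iInter fun i =>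
        measurableSet_le ((measurable_pi_apply i).sub_const _).abs measurable_const))
    (h.mono fun x hx _ => hx)

theorem oscillation_avg {f : (Fin n → ℝ) → ℝ} (hf : LocallyIntegrable f) (c : Fin n → ℝ) {r : ℝ}
    (hr : 0 < r) (a : ℝ) (C : ℝ≥0∞)
    (h : ∫⁻ x in closedBall c r, ‖f x - a‖ₑ ≤ C * volume (closedBall c r)) :
    ∫⁻ x in closedBall c r, ‖f x - avg f c r‖ₑ ≤ 2 * C * volume (closedBall c r) := by
  have hint : IntegrableOn f (closedBall c r) := hf.integrableOn_isCompact (isCompact_closedBall _ _)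
  have hV0 : volume (closedBall c r) ≠ 0 := (vol_closedBall_pos c hr).ne'
  have hVt : volume (closedBall c r) ≠ ∞ := vol_closedBall_ne_top c r
  have hV : 0 < (volume (closedBall c r)).toReal := ENNReal.toReal_pos hV0 hVt
  have : IsFiniteMeasure (volume.restrict (closedBall c r)) :=
    ⟨by rw [Measure.restrict_apply_univ]; exact hVt.lt_top⟩
  have hmean : a - avg f c r = (volume (closedBall c r)).toReal⁻¹ *
      ∫ x in closedBall c r, (a - f x) := by
    unfold avg
    rw [cube_eq c hr, integral_sub (integrable_const a) hint, setIntegral_const, measureReal_def,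
      smul_eq_mul]
    field_simp
  have h1 : ‖a - avg f c r‖ₑ * volume (closedBall c r) ≤ C * volume (closedBall c r) := by
    rw [hmean, enorm_mul]
    have e1 : ‖(volume (closedBall c r)).toReal⁻¹‖ₑ = (volume (closedBall c r))⁻¹ := by
      rw [Real.enorm_of_nonneg (by positivity), ENNReal.ofReal_inv_of_pos hV,
        ENNReal.ofReal_toReal hVt]
    rw [e1, mul_comm, ← mul_assoc, ENNReal.mul_inv_cancel hV0 hVt, one_mul]
    calc ‖∫ x in closedBall c r, (a - f x)‖ₑ ≤ ∫⁻ x in closedBall c r, ‖a - f x‖ₑ :=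
          enorm_integral_le_lintegral_enorm _
      _ = ∫⁻ x in closedBall c r, ‖f x - a‖ₑ := by
          congr 1; funext x; rw [← enorm_neg, neg_sub]
      _ ≤ _ := h
  calc ∫⁻ x in closedBall c r, ‖f x - avg f c r‖ₑ
      ≤ ∫⁻ x in closedBall c r, (‖f x - a‖ₑ + ‖a - avg f c r‖ₑ) := by
        apply lintegral_mono
        intro x
        have : f x - avg f c r = (f x - a) + (a - avg f c r) := by ring
        simp only
        rw [this]
        exact enorm_add_le _ _
    _ = (∫⁻ x in closedBall c r, ‖f x - a‖ₑ) +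
          ‖a - avg f c r‖ₑ * volume (closedBall c r) := by
        rw [lintegral_add_right _ measurable_const, setLIntegral_const]
    _ ≤ C * volume (closedBall c r) + C * volume (closedBall c r) := add_le_add h h1
    _ = 2 * C * volume (closedBall c r) := by ring

theorem bmo_phi_le (E : Set (Fin n → ℝ)) (hE : MeasurableSet E) (K : ℕ) :
    bmo (phi E K) ≤ 2 * ENNReal.ofReal (2 * 20 ^ n) := by
  unfold bmo
  refine iSup_le fun c => iSup_le fun r => iSup_le fun hr => ?_
  obtain ⟨a, ha⟩ := phi_bmo E hE K c hr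
  have h := oscillation_avg (locallyIntegrable_phi E K) c hr a _ ha
  rw [cube_eq c hr, ENNReal.div_le_iff (vol_closedBall_pos c hr).ne' (vol_closedBall_ne_top c r)]
  simpa only [Real.enorm_eq_ofReal_abs] using h

theorem avg_phi_le (E : Set (Fin n → ℝ)) (hE : MeasurableSet E) (K : ℕ) (y : Fin n → ℝ) {r : ℝ}
    (hr : 0 < r) (hEK : 2 ^ K * volume E ≤ volume (closedBall y r)) :
    avg (phi E K) y r ≤ 2 * 20 ^ n := by
  have h := phi_avg E hE K y hr hEK
  have hV0 : volume (closedBall y r) ≠ 0 := (vol_closedBall_pos y hr).ne'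
  have hVt : volume (closedBall y r) ≠ ∞ := vol_closedBall_ne_top y r
  have hV : 0 < (volume (closedBall y r)).toReal := ENNReal.toReal_pos hV0 hVt
  unfold avg
  rw [cube_eq y hr, integral_eq_lintegral_of_nonneg_ae (Eventually.of_forall (phi_nonneg E K))
    (measurable_phi E K).aestronglyMeasurable]
  have h2 := ENNReal.toReal_mono (ENNReal.mul_ne_top ENNReal.ofReal_ne_top hVt) h
  rw [ENNReal.toReal_mul, ENNReal.toReal_ofReal (by positivity)] at h2
  rw [inv_mul_le_iff₀ hV]
  linarith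

/-- Small sets have small norm. -/
theorem small_norm {X : (Fin n → ℝ) → ℝ → ((Fin n → ℝ) → ℝ) → ℝ≥0∞} (hX : IsFamily X)
    {C : ℝ≥0} (hC : ∀ f : (Fin n → ℝ) → ℝ, LocallyIntegrable f volume → bmo f < ∞ →
      bmoX X f ≤ C * bmo f) (y : Fin n → ℝ) {r : ℝ} (hr : 0 < r)
    (E : Set (Fin n → ℝ)) (hE : MeasurableSet E) (k : ℕ)
    (hk : (2 * 20 ^ n : ℝ) ≤ k) (hEK : 2 ^ k * volume E ≤ volume (closedBall y r)) :
    ENNReal.ofReal ((k : ℝ) - 2 * 20 ^ n) * X y r (E.indicator (fun _ => 1)) ≤
      C * (2 * ENNReal.ofReal (2 * 20 ^ n)) := by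
  have hQ := hX y r hr
  have hbmo := bmo_phi_le E hE k
  have hfin : bmo (phi E k) < ∞ :=
    hbmo.trans_lt (ENNReal.mul_lt_top (by norm_num) ENNReal.ofReal_lt_top)
  have h1 : X y r (fun x => phi E k x - avg (phi E k) y r) ≤ C * (2 * ENNReal.ofReal (2 * 20 ^ n)) := by
    calc X y r (fun x => phi E k x - avg (phi E k) y r) ≤ bmoX X (phi E k) := by
          unfold bmoX
          exact le_iSup_of_le y (le_iSup_of_le r (le_iSup_of_le hr le_rfl))
      _ ≤ C * bmo (phi E k) := hC _ (locallyIntegrable_phi E k) hfin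
      _ ≤ _ := by gcongr
  have hnn : 0 ≤ (k : ℝ) - 2 * 20 ^ n := by linarith
  have hsm := hQ.smul ((k : ℝ) - 2 * 20 ^ n) (E.indicator (fun _ => 1))
    (measurable_const.indicator hE).aemeasurable
  rw [abs_of_nonneg hnn] at hsm
  rw [← hsm]
  refine le_trans (hQ.mono _ _ ?_ ?_ ?_) h1
  · exact (measurable_const.mul (measurable_const.indicator hE)).aemeasurable
  · exact ((measurable_phi E k).sub_const _).aemeasurable
  · have hE' : ∀ᵐ x ∂(volume : Measure (Fin n → ℝ)), x ∈ E → phi E k x = k :=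
      (ae_restrict_iff' hE).mp (phi_eq_on_E E k)
    have havg := avg_phi_le E hE k y hr hEK
    filter_upwards [ae_restrict_of_ae hE'] with x hx
    by_cases hxE : x ∈ E
    · rw [indicator_of_mem hxE, mul_one, abs_of_nonneg hnn, hx hxE]
      exact le_trans (by linarith) (le_abs_self _)
    · rw [indicator_of_notMem hxE, mul_zero, abs_zero]
      exact abs_nonneg _

/-- Large portion of the cube where `f` is close to its mean. -/
theorem large_portion {X : (Fin n → ℝ) → ℝ → ((Fin n → ℝ) → ℝ) → ℝ≥0∞} (hX : IsFamily X)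
    {C : ℝ≥0} (hC : ∀ f : (Fin n → ℝ) → ℝ, LocallyIntegrable f volume → bmo f < ∞ →
      bmoX X f ≤ C * bmo f) {K a b : ℝ≥0} (ha : 0 < a) (hK : UniformQuasi X K)
    (hab : ∀ (c : Fin n → ℝ) (r : ℝ), 0 < r →
      (a : ℝ≥0∞) ≤ X c r (fun _ => 1) ∧ X c r (fun _ => 1) ≤ b) :
    ∃ (k : ℕ) (L : ℝ), 0 ≤ L ∧ ∀ (M : ℝ), 0 < M → ∀ g : (Fin n → ℝ) → ℝ, Measurable g →
      ∀ (y : Fin n → ℝ) (r : ℝ), 0 < r →
        X y r (fun x => g x - avg g y r) ≤ ENNReal.ofReal M →
        volume (closedBall y r) ≤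
          2 ^ k * volume ({x | |g x - avg g y r| ≤ L * M} ∩ closedBall y r) := by
  have haR : (0 : ℝ) < a := by exact_mod_cast ha
  have hKR : (0 : ℝ) ≤ K := K.2
  have hCR : (0 : ℝ) ≤ C := C.2
  set D : ℝ := C * (2 * (2 * 20 ^ n)) with hD
  have hDnn : 0 ≤ D := by positivity
  obtain ⟨k, hk⟩ := exists_nat_ge ((2 * 20 ^ n : ℝ) + 4 * K * D / a + 1)
  have hkC : (2 * 20 ^ n : ℝ) ≤ k := by
    have : 0 ≤ 4 * K * D / a := by positivity
    linarith
  set t : ℝ := (k : ℝ) - 2 * 20 ^ n with ht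
  have htpos : 0 < t := by
    have : 0 ≤ 4 * K * D / a := by positivity
    rw [ht]; linarith
  have htK : 4 * K * D ≤ a * t := by
    have h1 : 4 * K * D / a ≤ t := by rw [ht]; linarith
    rw [div_le_iff₀ haR] at h1
    linarith
  refine ⟨k, 4 * K / a + 1, by positivity, ?_⟩
  intro M hM g hg y r hr hgX
  by_contra hcon
  push Not at hcon
  set L : ℝ := 4 * K / a + 1 with hL
  have hLpos : 0 < L := by positivity
  set m := avg g y r with hm
  set B := closedBall y r with hB
  set E : Set (Fin n → ℝ) := {x | |g x - m| ≤ L * M} ∩ B with hE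
  have hEm : MeasurableSet E :=
    (measurableSet_le (hg.sub_const m).abs measurable_const).inter isClosed_closedBall.measurableSet
  have hQ := hX y r hr
  have hsmall := small_norm hX hC y hr E hEm k hkC hcon.le
  have hmeasI : AEMeasurable (E.indicator (fun _ => (1 : ℝ))) (volume.restrict (cube y r)) :=
    (measurable_const.indicator hEm).aemeasurable
  have hmeasg : AEMeasurable (fun x => g x - m) (volume.restrict (cube y r)) :=
    (hg.sub_const m).aemeasurable
  have hmeasg' : AEMeasurable (fun x => (L * M)⁻¹ * |g x - m|) (volume.restrict (cube y r)) :=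
    (measurable_const.mul (hg.sub_const m).abs).aemeasurable
  have hI1 : X y r (E.indicator (fun _ => 1)) ≤ b := by
    refine le_trans (hQ.mono _ _ hmeasI measurable_const.aemeasurable ?_) (hab y r hr).2
    refine Eventually.of_forall fun x => ?_
    by_cases hx : x ∈ E
    · rw [indicator_of_mem hx]
    · rw [indicator_of_notMem hx]; simp
  have htri : X y r (fun _ => 1) ≤ K * (X y r (E.indicator (fun _ => 1)) +
      X y r (fun x => (L * M)⁻¹ * |g x - m|)) := by
    refine le_trans (hQ.mono _ _ measurable_const.aemeasurable (hmeasI.add hmeasg') ?_)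
      (hK y r hr _ _ hmeasI hmeasg')
    have hmemB : ∀ᵐ x ∂(volume.restrict (cube y r)), x ∈ B := by
      rw [cube_eq y hr]
      exact ae_restrict_mem isClosed_closedBall.measurableSet
    filter_upwards [hmemB] with x hxB
    have hnn2 : 0 ≤ (L * M)⁻¹ * |g x - m| := by positivity
    simp only [Pi.add_apply]
    rw [abs_one]
    by_cases hx : x ∈ E
    · rw [indicator_of_mem hx, abs_of_nonneg (by positivity)]
      linarith
    · rw [indicator_of_notMem hx, zero_add, abs_of_nonneg hnn2]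
      have : L * M < |g x - m| := by
        by_contra hle
        push Not at hle
        exact hx ⟨hle, hxB⟩
      rw [inv_mul_eq_div, le_div_iff₀ (by positivity)]
      linarith
  have hsecond : X y r (fun x => (L * M)⁻¹ * |g x - m|) ≤ ENNReal.ofReal L⁻¹ := by
    calc X y r (fun x => (L * M)⁻¹ * |g x - m|)
        ≤ X y r (fun x => (L * M)⁻¹ * (g x - m)) := by
          refine hQ.mono _ _ hmeasg' (hmeasg.const_mul _) (Eventually.of_forall fun x => ?_)
          rw [abs_mul, abs_mul, abs_abs]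
      _ = ENNReal.ofReal |(L * M)⁻¹| * X y r (fun x => g x - m) := hQ.smul _ _ hmeasg
      _ ≤ ENNReal.ofReal |(L * M)⁻¹| * ENNReal.ofReal M := by gcongr
      _ = ENNReal.ofReal L⁻¹ := by
          rw [← ENNReal.ofReal_mul (abs_nonneg _), abs_of_nonneg (by positivity)]
          congr 1
          field_simp
  -- pass to real numbers
  obtain ⟨p, hp⟩ : ∃ p : ℝ≥0, X y r (E.indicator (fun _ => 1)) = p :=
    ⟨_, (ENNReal.coe_toNNReal (ne_top_of_le_ne_top ENNReal.coe_ne_top hI1)).symm⟩
  rw [hp] at hsmall htri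
  have h1 : (a : ℝ≥0∞) ≤ K * ((p : ℝ≥0∞) + ENNReal.ofReal L⁻¹) :=
    (hab y r hr).1.trans (htri.trans (by gcongr))
  have h1' : (a : ℝ) ≤ K * (p + L⁻¹) := by
    have e : (K : ℝ≥0∞) * ((p : ℝ≥0∞) + ENNReal.ofReal L⁻¹) =
        ENNReal.ofReal (K * (p + L⁻¹)) := by
      rw [ENNReal.ofReal_mul hKR, ENNReal.ofReal_add p.coe_nonneg (by positivity),
        ENNReal.ofReal_coe_nnreal, ENNReal.ofReal_coe_nnreal]
    rw [e, ← ENNReal.ofReal_coe_nnreal] at h1
    exact (ENNReal.ofReal_le_ofReal_iff (by positivity)).mp h1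
  have h2' : t * p ≤ D := by
    have e1 : ENNReal.ofReal t * (p : ℝ≥0∞) = ENNReal.ofReal (t * p) := by
      rw [ENNReal.ofReal_mul htpos.le, ENNReal.ofReal_coe_nnreal]
    have e2 : (C : ℝ≥0∞) * (2 * ENNReal.ofReal (2 * 20 ^ n)) = ENNReal.ofReal D := by
      rw [hD, ENNReal.ofReal_mul hCR, ENNReal.ofReal_mul (by norm_num),
        ENNReal.ofReal_coe_nnreal]
      norm_num
    rw [e1, e2] at hsmall
    exact (ENNReal.ofReal_le_ofReal_iff hDnn).mp hsmall
  have h3 : K * L⁻¹ ≤ a / 4 := by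
    rw [← div_eq_mul_inv, div_le_iff₀ hLpos, hL]
    have : a / 4 * (4 * K / a + 1) = (K : ℝ) + a / 4 := by field_simp
    rw [this]; linarith
  have h4 : K * p ≤ (a : ℝ) / 4 := by
    have h5 : K * (t * p) ≤ K * D := mul_le_mul_of_nonneg_left h2' hKR
    have h6 : t * (K * p) ≤ t * (a / 4) := by nlinarith
    exact le_of_mul_le_mul_left h6 htpos
  nlinarith

/-- Positive answer to Q1 for families with uniform quasi-norm constants. -/
theorem main {X : (Fin n → ℝ) → ℝ → ((Fin n → ℝ) → ℝ) → ℝ≥0∞} (hX : IsFamily X)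
    (hN : IsNormalized X) {K : ℝ≥0} (hK : UniformQuasi X K) (h : EmbBMO X) : EmbBMOX X := by
  obtain ⟨C, hC⟩ := h
  obtain ⟨a, b, ha, hab⟩ := hN
  obtain ⟨k, L, hL, hlarge⟩ := large_portion hX hC ha hK hab
  refine ⟨Real.toNNReal (2 * 5 ^ n * 2 ^ k * (2 * L)), ?_⟩
  intro f hf hfX
  set C' : ℝ≥0 := Real.toNNReal (2 * 5 ^ n * 2 ^ k * (2 * L)) with hC'
  -- it suffices to bound by any M > bmoX
  have key : ∀ M : ℝ, 0 < M → bmoX X f ≤ ENNReal.ofReal M → bmo f ≤ C' * ENNReal.ofReal M := by
    intro M hM hfM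
    set g := hf.aestronglyMeasurable.mk f with hg
    have hgm : Measurable g := hf.aestronglyMeasurable.stronglyMeasurable_mk.measurable
    have hfg : f =ᵐ[volume] g := hf.aestronglyMeasurable.ae_eq_mk
    have hgl : LocallyIntegrable g := hf.congr hfg
    have hyp : ∀ (y : Fin n → ℝ) (r : ℝ), 0 < r → volume (closedBall y r) ≤
        2 ^ k * volume ({x | |g x - ⨍ z in closedBall y r, g z| ≤ L * M} ∩ closedBall y r) := by
      intro y r hr
      have h1 : X y r (fun x => g x - avg g y r) ≤ ENNReal.ofReal M := by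
        have hQ := hX y r hr
        calc X y r (fun x => g x - avg g y r) ≤ X y r (fun x => f x - avg f y r) := by
              refine hQ.mono _ _ ((hgm.sub_const _).aemeasurable) ?_ ?_
              · exact (hf.aestronglyMeasurable.aemeasurable.sub_const _).restrict
              · rw [avg_congr hfg]
                filter_upwards [ae_restrict_of_ae hfg] with x hx
                rw [hx]
          _ ≤ bmoX X f := by
              unfold bmoX
              exact le_iSup_of_le y (le_iSup_of_le r (le_iSup_of_le hr le_rfl))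
          _ ≤ _ := hfM
      have := hlarge M hM g hgm y r hr h1
      rwa [avg_eq g y hr] at this
    unfold bmo
    refine iSup_le fun c => iSup_le fun r => iSup_le fun hr => ?_
    have hrv := real_var hgl hgm (by positivity : 0 ≤ L * M) (2 ^ k) hyp c hr
    rw [cube_eq c hr, ENNReal.div_le_iff (vol_closedBall_pos c hr).ne' (vol_closedBall_ne_top c r)]
    have e1 : ∫⁻ x in closedBall c r, ENNReal.ofReal |f x - avg f c r| =
        ∫⁻ x in closedBall c r, ‖g x - ⨍ z in closedBall c r, g z‖ₑ := by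
      apply lintegral_congr_ae
      filter_upwards [ae_restrict_of_ae hfg] with x hx
      rw [hx, avg_congr hfg, avg_eq g c hr, Real.enorm_eq_ofReal_abs]
    rw [e1]
    refine hrv.trans (le_of_eq ?_)
    have e2 : (C' : ℝ≥0∞) = ENNReal.ofReal (2 * 5 ^ n * 2 ^ k * (2 * L)) := rfl
    rw [e2, ← ENNReal.ofReal_mul (by positivity)]
    have e3 : (2 : ℝ≥0∞) ^ k = ENNReal.ofReal (2 ^ k) := by
      rw [ENNReal.ofReal_pow (by norm_num)]; norm_num
    have e4 : (2 : ℝ≥0∞) = ENNReal.ofReal 2 := by norm_num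
    rw [e3, e4, ← mul_assoc (ENNReal.ofReal (2 ^ k)), ← mul_assoc, ← mul_assoc,
      ← ENNReal.ofReal_mul (by positivity), ← ENNReal.ofReal_mul (by positivity),
      ← ENNReal.ofReal_mul (by positivity)]
    congr 2
    ring
  obtain ⟨q, hq⟩ : ∃ q : ℝ≥0, bmoX X f = q := ⟨_, (ENNReal.coe_toNNReal hfX.ne).symm⟩
  rw [hq]
  rw [← ENNReal.coe_mul]
  apply ENNReal.le_of_forall_pos_le_add
  intro ε hε _
  have hM := key (q + ε / (C' + 1)) (by positivity) (by
    rw [hq, ENNReal.ofReal_add q.coe_nonneg (by positivity), ENNReal.ofReal_coe_nnreal]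
    exact le_self_add)
  refine hM.trans ?_
  have e : (C' : ℝ≥0∞) * ENNReal.ofReal (q + ε / (C' + 1)) =
      ENNReal.ofReal (C' * (q + ε / (C' + 1))) := by
    rw [ENNReal.ofReal_mul C'.coe_nonneg, ENNReal.ofReal_coe_nnreal]
  rw [e, ← ENNReal.coe_add]
  rw [← ENNReal.ofReal_coe_nnreal]
  apply ENNReal.ofReal_le_ofReal
  push_cast
  have hCnn : (0 : ℝ) ≤ C' := C'.2
  have : (C' : ℝ) * (ε / (C' + 1)) ≤ ε := by
    rw [mul_div_assoc', div_le_iff₀ (by positivity)]
    have : (0 : ℝ) ≤ ε := ε.2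
    nlinarith
  linarith

end Pool.Agent.H54B
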