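import Mathlib
import Pool.Agent.H54B.Defs
import Pool.Agent.H54B.Cover
import Pool.Agent.H54B.Main

set_option autoImplicit false

namespace Pool.Agent.H54B

open MeasureTheory Metric Set Filter Topology ENNReal NNReal

/-- Completeness of a functional equivalent to the `L¹` norm. -/
theorem complete_of_equiv {α : Type} [MeasurableSpace α] {μ : Measure α}
    {N : (α → ℝ) → ℝ≥0∞} {c1 c2 : ℝ≥0∞} (h1 : c1 ≠ 0) (h1' : c1 ≠ ∞) (h2 : c2 ≠ ∞)
    (hN1 : ∀ g : α → ℝ, AEMeasurable g μ → c1 * ∫⁻ x, ENNReal.ofReal |g x| ∂μ ≤ N g)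
    (hN2 : ∀ g : α → ℝ, AEMeasurable g μ → N g ≤ c2 * ∫⁻ x, ENNReal.ofReal |g x| ∂μ)
    (f : ℕ → α → ℝ) (hf : ∀ k, AEMeasurable (f k) μ) (hfin : ∀ k, N (f k) < ∞)
    (hcau : ∀ ε : ℝ≥0∞, 0 < ε → ∃ m, ∀ i j, m ≤ i → m ≤ j → N (fun x => f i x - f j x) ≤ ε) :
    ∃ g : α → ℝ, AEMeasurable g μ ∧ N g < ∞ ∧
      Tendsto (fun k => N (fun x => f k x - g x)) atTop (𝓝 0) := by
  have hnorm : ∀ g : α → ℝ, eLpNorm g 1 μ = ∫⁻ x, ENNReal.ofReal |g x| ∂μ := by
    intro g
    rw [eLpNorm_one_eq_lintegral_enorm]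
    simp only [Real.enorm_eq_ofReal_abs]
  have hle : ∀ g : α → ℝ, AEMeasurable g μ → eLpNorm g 1 μ ≤ c1⁻¹ * N g := by
    intro g hg
    rw [hnorm]
    have := hN1 g hg
    calc ∫⁻ x, ENNReal.ofReal |g x| ∂μ
        = c1⁻¹ * (c1 * ∫⁻ x, ENNReal.ofReal |g x| ∂μ) := by
          rw [← mul_assoc, ENNReal.inv_mul_cancel h1 h1', one_mul]
      _ ≤ _ := by gcongr
  have hmem : ∀ k, MemLp (f k) 1 μ := fun k => ⟨(hf k).aestronglyMeasurable,
    (hle _ (hf k)).trans_lt (ENNReal.mul_lt_top (ENNReal.inv_lt_top.mpr (pos_iff_ne_zero.mpr h1))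
      (hfin k))⟩
  let F : ℕ → Lp ℝ 1 μ := fun k => (hmem k).toLp (f k)
  have hF : CauchySeq F := by
    rw [EMetric.cauchySeq_iff]
    intro ε hε
    have hc : 0 < c1 * (ε / 2) := by
      refine ENNReal.mul_pos h1 (ENNReal.half_pos hε.ne').ne'
    obtain ⟨m, hm⟩ := hcau (c1 * (min (ε / 2) 1)) (ENNReal.mul_pos h1
      (ne_of_gt (lt_min (ENNReal.half_pos hε.ne') one_pos)))
    refine ⟨m, fun i hi j hj => ?_⟩
    rw [Lp.edist_toLp_toLp]
    calc eLpNorm (f i - f j) 1 μ ≤ c1⁻¹ * N (f i - f j) := hle _ ((hf i).sub (hf j))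
      _ ≤ c1⁻¹ * (c1 * (min (ε / 2) 1)) := by
          gcongr
          exact hm i j hi hj
      _ = min (ε / 2) 1 := by rw [← mul_assoc, ENNReal.inv_mul_cancel h1 h1', one_mul]
      _ < ε := by
          rcases eq_or_ne ε ∞ with h | h
          · rw [h]; exact (min_le_right _ _).trans_lt one_lt_top
          · exact (min_le_left _ _).trans_lt (ENNReal.half_lt_self hε.ne' h)
  obtain ⟨G, hG⟩ := cauchySeq_tendsto_of_complete hF
  refine ⟨G, (Lp.aestronglyMeasurable G).aemeasurable, ?_, ?_⟩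
  · refine (hN2 _ (Lp.aestronglyMeasurable G).aemeasurable).trans_lt ?_
    rw [← hnorm]
    exact ENNReal.mul_lt_top h2.lt_top (Lp.memLp G).2
  · have h3 : Tendsto (fun k => edist (F k) G) atTop (𝓝 0) := by
      rwa [tendsto_iff_edist_tendsto_0] at hG
    have h4 : ∀ k, edist (F k) G = eLpNorm (f k - (G : α → ℝ)) 1 μ := by
      intro k
      rw [Lp.edist_def]
      apply eLpNorm_congr_ae
      filter_upwards [(hmem k).coeFn_toLp] with x hx
      simp only [Pi.sub_apply, F]
      rw [hx]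
    simp only [h4] at h3
    have h5 : Tendsto (fun k => c2 * eLpNorm (f k - (G : α → ℝ)) 1 μ) atTop (𝓝 0) := by
      have := ENNReal.Tendsto.const_mul h3 (Or.inr h2) (a := c2)
      rwa [mul_zero] at this
    refine tendsto_of_tendsto_of_tendsto_of_le_of_le tendsto_const_nhds h5
      (fun _ => bot_le) (fun k => ?_)
    have := hN2 (f k - (G : α → ℝ)) ((hf k).sub (Lp.aestronglyMeasurable G).aemeasurable)
    rw [← hnorm] at this
    exact this

variable {n : ℕ}

/-- normalized weighted `L¹` norm -/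
noncomputable def wnorm (B : Set (Fin n → ℝ)) (w : (Fin n → ℝ) → ℝ) (g : (Fin n → ℝ) → ℝ) : ℝ≥0∞ :=
  (∫⁻ x in B, ENNReal.ofReal |g x| * ENNReal.ofReal (w x)) / volume B

theorem wnorm_isQBFS {c : Fin n → ℝ} {r : ℝ} (hr : 0 < r) {w : (Fin n → ℝ) → ℝ}
    (hw : Measurable w) {ε : ℝ} (hε : 0 < ε) (hw1 : ∀ x, ε ≤ w x) (hw2 : ∀ x, w x ≤ 1) :
    IsQBFS (cube c r) (wnorm (cube c r) w) ∧
    ∀ f g : (Fin n → ℝ) → ℝ, AEMeasurable f (volume.restrict (cube c r)) →
      AEMeasurable g (volume.restrict (cube c r)) →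
      wnorm (cube c r) w (fun x => f x + g x) ≤ wnorm (cube c r) w f + wnorm (cube c r) w g := by
  set B := cube c r with hB
  have hBe : B = closedBall c r := cube_eq c hr
  have hV0 : volume B ≠ 0 := by rw [hBe]; exact (vol_closedBall_pos c hr).ne'
  have hVt : volume B ≠ ∞ := by rw [hBe]; exact vol_closedBall_ne_top c r
  have hadd : ∀ f g : (Fin n → ℝ) → ℝ, AEMeasurable f (volume.restrict B) →
      AEMeasurable g (volume.restrict B) →
      wnorm B w (fun x => f x + g x) ≤ wnorm B w f + wnorm B w g := by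
    intro f g hf hg
    unfold wnorm
    rw [← ENNReal.add_div, ← lintegral_add_left']
    · gcongr with x
      rw [← add_mul]
      gcongr
      rw [← ENNReal.ofReal_add (abs_nonneg _) (abs_nonneg _)]
      exact ENNReal.ofReal_le_ofReal (abs_add_le _ _)
    · exact (hf.abs.ennreal_ofReal).mul hw.ennreal_ofReal.aemeasurable
  have hwpos : ∀ x, ENNReal.ofReal (w x) ≠ 0 := fun x =>
    (ENNReal.ofReal_pos.mpr (hε.trans_le (hw1 x))).ne'
  refine ⟨?_, hadd⟩
  refine ⟨?_, ?_, ?_, ?_, ?_, ?_, ?_⟩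
  · intro f g _ _ h
    unfold wnorm
    gcongr 1
    apply lintegral_mono_ae
    filter_upwards [h] with x hx
    gcongr
  · intro f hf
    unfold wnorm
    rw [ENNReal.div_eq_zero_iff, or_iff_left hVt]
    have hmm : AEMeasurable (fun x => ENNReal.ofReal |f x| * ENNReal.ofReal (w x))
      (volume.restrict B) := (hf.abs.ennreal_ofReal).mul hw.ennreal_ofReal.aemeasurable
    rw [lintegral_eq_zero_iff' hmm]
    constructor
    · intro h
      filter_upwards [h] with x hx
      simp only [Pi.zero_apply, mul_eq_zero, hwpos x, or_false] at hx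
      rw [ENNReal.ofReal_eq_zero] at hx
      exact abs_nonpos_iff.mp hx
    · intro h
      filter_upwards [h] with x hx
      simp [hx]
  · intro a f hf
    unfold wnorm
    have : ∀ x, ENNReal.ofReal |a * f x| * ENNReal.ofReal (w x) =
        ENNReal.ofReal |a| * (ENNReal.ofReal |f x| * ENNReal.ofReal (w x)) := by
      intro x
      rw [abs_mul, ENNReal.ofReal_mul (abs_nonneg _), mul_assoc]
    simp only [this]
    rw [lintegral_const_mul' _ _ ENNReal.ofReal_ne_top, mul_div_assoc]
  · refine ⟨1, fun f g hf hg => ?_⟩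
    rw [ENNReal.coe_one, one_mul]
    exact hadd f g hf hg
  · refine ⟨fun _ => 1, measurable_const.aemeasurable, Eventually.of_forall fun _ => one_pos, ?_⟩
    unfold wnorm
    apply ENNReal.div_lt_top _ hV0
    have : ∫⁻ x in B, ENNReal.ofReal |(1 : ℝ)| * ENNReal.ofReal (w x) ≤ ∫⁻ x in B, 1 := by
      apply lintegral_mono
      intro x
      simp only [abs_one, ENNReal.ofReal_one, one_mul]
      rw [← ENNReal.ofReal_one]
      exact ENNReal.ofReal_le_ofReal (hw2 x)
    refine ne_top_of_le_ne_top ?_ this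
    rw [setLIntegral_const, one_mul]
    exact hVt
  · intro f g hf hmono hlim
    unfold wnorm
    have hlimm : Tendsto (fun k => ∫⁻ x in B, ENNReal.ofReal |f k x| * ENNReal.ofReal (w x)) atTop
        (𝓝 (∫⁻ x in B, ENNReal.ofReal |g x| * ENNReal.ofReal (w x))) := by
      apply lintegral_tendsto_of_tendsto_of_monotone
      · exact fun k => ((hf k).abs.ennreal_ofReal).mul hw.ennreal_ofReal.aemeasurable
      · filter_upwards [hmono] with x hx
        apply monotone_nat_of_le_succ
        intro k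
        gcongr 1
        apply ENNReal.ofReal_le_ofReal
        rw [abs_of_nonneg (hx k).1, abs_of_nonneg (hx (k + 1)).1]
        exact (hx k).2
      · filter_upwards [hlim] with x hx
        apply ENNReal.Tendsto.mul_const
        · exact (ENNReal.continuous_ofReal.tendsto _).comp hx.abs
        · right; exact ENNReal.ofReal_ne_top
    have hmonoI : Monotone (fun k => ∫⁻ x in B, ENNReal.ofReal |f k x| * ENNReal.ofReal (w x)) := by
      apply monotone_nat_of_le_succ
      intro k
      apply lintegral_mono_ae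
      filter_upwards [hmono] with x hx
      gcongr 1
      apply ENNReal.ofReal_le_ofReal
      rw [abs_of_nonneg (hx k).1, abs_of_nonneg (hx (k + 1)).1]
      exact (hx k).2
    have hsup := tendsto_nhds_unique hlimm (tendsto_atTop_iSup hmonoI)
    rw [hsup, ENNReal.iSup_div]
  · intro f hf hfin hcau
    refine complete_of_equiv (μ := volume.restrict B) (N := wnorm B w)
      (c1 := ENNReal.ofReal ε / volume B) (c2 := (volume B)⁻¹) ?_ ?_ ?_ ?_ ?_ f hf hfin hcau
    · exact (ENNReal.div_pos (ENNReal.ofReal_pos.mpr hε).ne' hVt).ne'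
    · exact (ENNReal.div_lt_top ENNReal.ofReal_ne_top hV0).ne
    · exact ENNReal.inv_ne_top.mpr hV0
    · intro g hg
      unfold wnorm
      rw [← ENNReal.mul_div_right_comm, ← lintegral_const_mul' _ _ ENNReal.ofReal_ne_top]
      gcongr 1
      apply lintegral_mono
      intro x
      change ENNReal.ofReal ε * ENNReal.ofReal |g x| ≤ ENNReal.ofReal |g x| * ENNReal.ofReal (w x)
      rw [mul_comm]
      gcongr
      exact hw1 x
    · intro g hg
      unfold wnorm
      rw [mul_comm, ← div_eq_mul_inv]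
      gcongr with x
      calc ENNReal.ofReal |g x| * ENNReal.ofReal (w x) ≤ ENNReal.ofReal |g x| * 1 := by
            gcongr
            rw [← ENNReal.ofReal_one]
            exact ENNReal.ofReal_le_ofReal (hw2 x)
        _ = _ := mul_one _

end Pool.Agent.H54B
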