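import Mathlib
import Pool.Agent.H54B.Defs
import Pool.Agent.H54B.Cover
import Pool.Agent.H54B.Main
import Pool.Agent.H54B.Weighted

set_option autoImplicit false

namespace Pool.Agent.H54B

open MeasureTheory Metric Set Filter Topology ENNReal NNReal

section star

variable {α : Type} [MeasurableSpace α] (μ : Measure α) (V : ℝ≥0∞)

/-- A value of the decreasing rearrangement. -/
noncomputable def star (g : α → ℝ) : ℝ≥0∞ :=
  sInf {s : ℝ≥0∞ | μ {x | s < ENNReal.ofReal |g x|} ≤ V}

variable {μ V}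

theorem star_le {g : α → ℝ} {s : ℝ≥0∞} (h : μ {x | s < ENNReal.ofReal |g x|} ≤ V) :
    star μ V g ≤ s := sInf_le h

theorem star_attained (g : α → ℝ) : μ {x | star μ V g < ENNReal.ofReal |g x|} ≤ V := by
  set t := star μ V g with ht
  rcases eq_or_ne t ∞ with htop | htop
  · have : {x | t < ENNReal.ofReal |g x|} = ∅ := by
      ext x; simp [htop]
    rw [this, measure_empty]; exact bot_le
  · obtain ⟨u, hanti, hgt, hlim⟩ := exists_seq_strictAnti_tendsto' (lt_top_iff_ne_top.mpr htop)
    have hun : {x | t < ENNReal.ofReal |g x|} = ⋃ k, {x | u k < ENNReal.ofReal |g x|} := by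
      ext x
      simp only [mem_ofPred_eq, mem_iUnion]
      constructor
      · intro hx
        exact ((hlim.eventually (Iio_mem_nhds hx)).exists)
      · rintro ⟨k, hk⟩
        exact (hgt k).1.trans hk
    have hmono : Monotone (fun k => {x | u k < ENNReal.ofReal |g x|}) := by
      intro i j hij x hx
      exact lt_of_le_of_lt (hanti.antitone hij) hx
    rw [hun, hmono.measure_iUnion]
    refine iSup_le fun k => ?_
    have h1 : t < u k := (hgt k).1
    rw [ht] at h1
    obtain ⟨s, hs, hsu⟩ := sInf_lt_iff.mp h1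
    refine le_trans (measure_mono ?_) hs
    intro x hx
    exact hsu.trans hx

theorem star_mono {f g : α → ℝ} (h : ∀ᵐ x ∂μ, |f x| ≤ |g x|) : star μ V f ≤ star μ V g := by
  apply star_le
  refine le_trans (measure_mono_ae ?_) (star_attained g)
  filter_upwards [h] with x hx hx2
  exact lt_of_lt_of_le hx2 (ENNReal.ofReal_le_ofReal hx)

theorem star_zero : star μ V (fun _ => (0 : ℝ)) = 0 := by
  apply le_antisymm _ bot_le
  apply star_le
  simp

theorem star_smul_le {a : ℝ} (ha : a ≠ 0) (g : α → ℝ) :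
    star μ V (fun x => a * g x) ≤ ENNReal.ofReal |a| * star μ V g := by
  apply star_le
  refine le_trans (le_of_eq ?_) (star_attained (μ := μ) (V := V) g)
  congr 1
  ext x
  simp only [mem_ofPred_eq]
  rw [abs_mul, ENNReal.ofReal_mul (abs_nonneg _)]
  have h0 : ENNReal.ofReal |a| ≠ 0 := (ENNReal.ofReal_pos.mpr (abs_pos.mpr ha)).ne'
  exact ENNReal.mul_lt_mul_iff_right h0 ENNReal.ofReal_ne_top

theorem star_smul (a : ℝ) (g : α → ℝ) :
    star μ V (fun x => a * g x) = ENNReal.ofReal |a| * star μ V g := by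
  by_cases ha : a = 0
  · subst ha
    simp only [zero_mul, abs_zero, ENNReal.ofReal_zero]
    exact star_zero
  · apply le_antisymm (star_smul_le ha g)
    have h := star_smul_le (μ := μ) (V := V) (inv_ne_zero ha) (fun x => a * g x)
    have e : (fun x => a⁻¹ * (a * g x)) = g := by
      funext x; field_simp
    rw [e] at h
    have h0 : ENNReal.ofReal |a| ≠ 0 := (ENNReal.ofReal_pos.mpr (abs_pos.mpr ha)).ne'
    calc ENNReal.ofReal |a| * star μ V g
        ≤ ENNReal.ofReal |a| * (ENNReal.ofReal |a⁻¹| * star μ V (fun x => a * g x)) := by gcongr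
      _ = star μ V (fun x => a * g x) := by
          rw [← mul_assoc, abs_inv, ENNReal.ofReal_inv_of_pos (abs_pos.mpr ha),
            ENNReal.mul_inv_cancel h0 ENNReal.ofReal_ne_top, one_mul]

/-- Chebyshev. -/
theorem star_le_lintegral (hV0 : V ≠ 0) (hVt : V ≠ ∞) {g : α → ℝ} (hg : AEMeasurable g μ) :
    star μ V g ≤ (∫⁻ x, ENNReal.ofReal |g x| ∂μ) / V := by
  set I := ∫⁻ x, ENNReal.ofReal |g x| ∂μ with hI
  have hgm : AEMeasurable (fun x => ENNReal.ofReal |g x|) μ := hg.abs.ennreal_ofReal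
  apply star_le
  rcases eq_or_ne I 0 with h0 | h0
  · rw [hI, lintegral_eq_zero_iff' hgm] at h0
    have : μ {x | I / V < ENNReal.ofReal |g x|} = 0 := by
      rw [← nonpos_iff_eq_zero, ← (show μ (∅ : Set α) = 0 from measure_empty)]
      apply measure_mono_ae
      filter_upwards [h0] with x hx hx2
      have hx2' : I / V < ENNReal.ofReal |g x| := hx2
      rw [hx] at hx2'
      exact absurd hx2' (by simp)
    rw [this]; exact bot_le
  · rcases eq_or_ne I ∞ with h1 | h1
    · have : {x | I / V < ENNReal.ofReal |g x|} = ∅ := by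
        ext x
        simp only [mem_ofPred_eq, mem_empty_iff_false, iff_false, not_lt]
        rw [h1, ENNReal.top_div_of_ne_top hVt]
        exact le_top
      rw [this, measure_empty]; exact bot_le
    · have h2 : I / V * μ {x | I / V ≤ ENNReal.ofReal |g x|} ≤ I :=
        mul_meas_ge_le_lintegral₀ hgm _
      have h3 : μ {x | I / V < ENNReal.ofReal |g x|} ≤ μ {x | I / V ≤ ENNReal.ofReal |g x|} :=
        measure_mono fun x (hx : I / V < ENNReal.ofReal |g x|) => (show _ ≤ _ from le_of_lt hx)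
      have hq0 : I / V ≠ 0 := (ENNReal.div_pos h0 hVt).ne'
      have hqt : I / V ≠ ∞ := (ENNReal.div_lt_top h1 hV0).ne
      refine h3.trans ?_
      rw [← ENNReal.mul_le_mul_iff_right hq0 hqt]
      refine h2.trans (le_of_eq ?_)
      rw [ENNReal.div_mul_cancel hV0 hVt]

/-- Fatou property. -/
theorem star_fatou {f : ℕ → α → ℝ} {g : α → ℝ}
    (hmono : ∀ᵐ x ∂μ, ∀ k, 0 ≤ f k x ∧ f k x ≤ f (k + 1) x)
    (hlim : ∀ᵐ x ∂μ, Tendsto (fun k => f k x) atTop (𝓝 (g x))) :
    star μ V g = ⨆ k, star μ V (f k) := by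
  have hle : ∀ᵐ x ∂μ, ∀ k, 0 ≤ f k x ∧ f k x ≤ g x := by
    filter_upwards [hmono, hlim] with x hx hx2 k
    refine ⟨(hx k).1, ?_⟩
    exact (monotone_nat_of_le_succ (fun k => (hx k).2)).ge_of_tendsto hx2 k
  apply le_antisymm
  · apply star_le
    set t := ⨆ k, star μ V (f k) with ht
    have hsub : ∀ᵐ x ∂μ, x ∈ {x | t < ENNReal.ofReal |g x|} →
        x ∈ ⋃ k, ⋂ j, ⋂ (_ : k ≤ j), {x | t < ENNReal.ofReal |f j x|} := by
      filter_upwards [hlim] with x hx hx2
      have h1 : Tendsto (fun k => ENNReal.ofReal |f k x|) atTop (𝓝 (ENNReal.ofReal |g x|)) :=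
        (ENNReal.continuous_ofReal.tendsto _).comp hx.abs
      have h2 := h1.eventually (Ioi_mem_nhds hx2)
      rw [eventually_atTop] at h2
      obtain ⟨k, hk⟩ := h2
      simp only [mem_iUnion, mem_iInter]
      exact ⟨k, fun j hj => hk j hj⟩
    have hsub' : μ {x | t < ENNReal.ofReal |g x|} ≤
        μ (⋃ k, ⋂ j, ⋂ (_ : k ≤ j), {x | t < ENNReal.ofReal |f j x|}) := measure_mono_ae hsub
    refine le_trans hsub' ?_
    have hmono' : Monotone (fun k => ⋂ j, ⋂ (_ : k ≤ j), {x | t < ENNReal.ofReal |f j x|}) := by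
      intro a b hab x hx
      simp only [mem_iInter] at hx ⊢
      exact fun j hj => hx j (hab.trans hj)
    rw [hmono'.measure_iUnion]
    refine iSup_le fun k => ?_
    refine le_trans (measure_mono ?_) (star_attained (μ := μ) (V := V) (f k))
    intro x hx
    simp only [mem_iInter] at hx
    exact lt_of_le_of_lt (le_iSup (fun k => star μ V (f k)) k) (hx k le_rfl)
  · refine iSup_le fun k => star_mono ?_
    filter_upwards [hle] with x hx
    rw [abs_of_nonneg (hx k).1, abs_of_nonneg ((hx k).1.trans (hx k).2)]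
    exact (hx k).2

end star

variable {n : ℕ}

/-- rearrangement value plus small multiple of the mean -/
noncomputable def snorm (B : Set (Fin n → ℝ)) (V : ℝ≥0∞) (ε : ℝ) (g : (Fin n → ℝ) → ℝ) : ℝ≥0∞ :=
  star (volume.restrict B) V g + wnorm B (fun _ => ε) g

theorem snorm_isQBFS {c : Fin n → ℝ} {r : ℝ} (hr : 0 < r) {V : ℝ≥0∞} (hV0 : V ≠ 0)
    (hVle : V < volume (cube c r)) {ε : ℝ} (hε : 0 < ε) (hε1 : ε ≤ 1) :
    IsQBFS (cube c r) (snorm (cube c r) V ε) := by
  set B := cube c r with hB
  have hBe : B = closedBall c r := cube_eq c hr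
  have hvB0 : volume B ≠ 0 := by rw [hBe]; exact (vol_closedBall_pos c hr).ne'
  have hvBt : volume B ≠ ∞ := by rw [hBe]; exact vol_closedBall_ne_top c r
  have hVt : V ≠ ∞ := hVle.ne_top
  obtain ⟨hW, hWadd⟩ := wnorm_isQBFS (c := c) hr (w := fun _ => ε) measurable_const hε
    (fun _ => le_rfl) (fun _ => hε1)
  have hwe : ∀ g : (Fin n → ℝ) → ℝ, wnorm B (fun _ => ε) g =
      ENNReal.ofReal ε / volume B * ∫⁻ x in B, ENNReal.ofReal |g x| := by
    intro g
    unfold wnorm
    rw [lintegral_mul_const' _ _ ENNReal.ofReal_ne_top, mul_div_assoc, mul_comm]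
  have hst : ∀ g : (Fin n → ℝ) → ℝ, AEMeasurable g (volume.restrict B) →
      star (volume.restrict B) V g ≤ V⁻¹ * ∫⁻ x in B, ENNReal.ofReal |g x| := by
    intro g hg
    refine (star_le_lintegral hV0 hVt hg).trans (le_of_eq ?_)
    rw [div_eq_mul_inv, mul_comm]
  have hec : ENNReal.ofReal ε / volume B ≠ 0 :=
    (ENNReal.div_pos (ENNReal.ofReal_pos.mpr hε).ne' hvBt).ne'
  have hect : ENNReal.ofReal ε / volume B ≠ ∞ := (ENNReal.div_lt_top ENNReal.ofReal_ne_top hvB0).ne
  refine ⟨?_, ?_, ?_, ?_, ?_, ?_, ?_⟩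
  · intro f g hf hg h
    exact add_le_add (star_mono h) (hW.mono f g hf hg h)
  · intro f hf
    unfold snorm
    constructor
    · intro h
      exact (hW.eq_zero f hf).mp (add_eq_zero.mp h).2
    · intro h
      have h1 : wnorm B (fun _ => ε) f = 0 := (hW.eq_zero f hf).mpr h
      have h2 : star (volume.restrict B) V f = 0 := by
        apply le_antisymm _ bot_le
        refine le_trans ?_ (star_zero (μ := volume.restrict B) (V := V)).le
        apply star_mono
        filter_upwards [h] with x hx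
        rw [hx]
      rw [h1, h2, add_zero]
  · intro a f hf
    unfold snorm
    rw [star_smul, hW.smul a f hf, mul_add]
  · -- quasi-triangle
    obtain ⟨K, hK⟩ : ∃ K : ℝ≥0, (K : ℝ≥0∞) = V⁻¹ / (ENNReal.ofReal ε / volume B) + 1 := by
      have : V⁻¹ / (ENNReal.ofReal ε / volume B) + 1 ≠ ∞ := by
        refine ENNReal.add_ne_top.mpr ⟨?_, one_ne_top⟩
        exact (ENNReal.div_lt_top (ENNReal.inv_ne_top.mpr hV0) hec).ne
      exact ⟨_, ENNReal.coe_toNNReal this⟩
    refine ⟨K, fun f g hf hg => ?_⟩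
    have h1 : star (volume.restrict B) V (fun x => f x + g x) ≤
        V⁻¹ / (ENNReal.ofReal ε / volume B) * wnorm B (fun _ => ε) (fun x => f x + g x) := by
      refine (hst (fun x => f x + g x) (hf.add hg)).trans (le_of_eq ?_)
      rw [hwe, ← mul_assoc, ENNReal.div_mul_cancel hec hect]
    have h2 : wnorm B (fun _ => ε) (fun x => f x + g x) ≤
        snorm B V ε f + snorm B V ε g := by
      refine (hWadd f g hf hg).trans ?_
      unfold snorm
      exact add_le_add le_add_self le_add_self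
    calc snorm B V ε (fun x => f x + g x)
        ≤ V⁻¹ / (ENNReal.ofReal ε / volume B) * wnorm B (fun _ => ε) (fun x => f x + g x) +
          1 * wnorm B (fun _ => ε) (fun x => f x + g x) := by
          rw [one_mul]
          exact add_le_add h1 le_rfl
      _ = K * wnorm B (fun _ => ε) (fun x => f x + g x) := by rw [hK, add_mul]
      _ ≤ K * (snorm B V ε f + snorm B V ε g) := by gcongr
  · refine ⟨fun _ => 1, measurable_const.aemeasurable, Eventually.of_forall fun _ => one_pos, ?_⟩
    unfold snorm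
    have e : ∫⁻ x in B, ENNReal.ofReal |(1 : ℝ)| = volume B := by
      rw [abs_one, ENNReal.ofReal_one, setLIntegral_const, one_mul]
    refine ENNReal.add_lt_top.mpr ⟨?_, ?_⟩
    · refine (hst _ measurable_const.aemeasurable).trans_lt ?_
      rw [e]
      exact ENNReal.mul_lt_top (ENNReal.inv_lt_top.mpr (pos_iff_ne_zero.mpr hV0)) hvBt.lt_top
    · rw [hwe, e]
      exact ENNReal.mul_lt_top hect.lt_top hvBt.lt_top
  · intro f g hf hmono hlim
    unfold snorm
    rw [star_fatou hmono hlim, hW.fatou f g hf hmono hlim]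
    apply ENNReal.iSup_add_iSup_of_monotone
    · apply monotone_nat_of_le_succ
      intro k
      apply star_mono
      filter_upwards [hmono] with x hx
      rw [abs_of_nonneg (hx k).1, abs_of_nonneg (hx (k + 1)).1]
      exact (hx k).2
    · apply monotone_nat_of_le_succ
      intro k
      apply hW.mono _ _ (hf k) (hf (k + 1))
      filter_upwards [hmono] with x hx
      rw [abs_of_nonneg (hx k).1, abs_of_nonneg (hx (k + 1)).1]
      exact (hx k).2
  · intro f hf hfin hcau
    refine complete_of_equiv (μ := volume.restrict B) (N := snorm B V ε)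
      (c1 := ENNReal.ofReal ε / volume B) (c2 := V⁻¹ + ENNReal.ofReal ε / volume B) hec hect ?_
      ?_ ?_ f hf hfin hcau
    · exact ENNReal.add_ne_top.mpr ⟨ENNReal.inv_ne_top.mpr hV0, hect⟩
    · intro g hg
      unfold snorm
      rw [hwe]
      exact le_add_self
    · intro g hg
      unfold snorm
      rw [hwe, add_mul]
      exact add_le_add (hst g hg) le_rfl

variable [NeZero n]

/-- first coordinate -/
def f0 (x : Fin n → ℝ) : ℝ := x 0

theorem continuous_f0 : Continuous (f0 : (Fin n → ℝ) → ℝ) := continuous_apply 0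

theorem avg_f0 (c : Fin n → ℝ) {r : ℝ} (hr : 0 < r) : avg f0 c r = c 0 := by
  have hV0 : volume (closedBall c r) ≠ 0 := (vol_closedBall_pos c hr).ne'
  have hVt : volume (closedBall c r) ≠ ∞ := vol_closedBall_ne_top c r
  have hV : 0 < (volume (closedBall c r)).toReal := ENNReal.toReal_pos hV0 hVt
  have : IsFiniteMeasure (volume.restrict (closedBall c r)) :=
    ⟨by rw [Measure.restrict_apply_univ]; exact hVt.lt_top⟩
  have hint : IntegrableOn (f0 : (Fin n → ℝ) → ℝ) (closedBall c r) :=
    (continuous_f0.locallyIntegrable).integrableOn_isCompact (isCompact_closedBall _ _)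
  have h0 : ∫ x in closedBall c r, (f0 x - c 0) = 0 := by
    have hI : ∫ x in closedBall c r, (f0 x - c 0) =
        ∫ x, (closedBall c r).indicator (fun x => f0 x - c 0) x :=
      (integral_indicator isClosed_closedBall.measurableSet).symm
    have hsymm : ∫ x, (closedBall c r).indicator (fun x => f0 x - c 0) ((c + c) - x) =
        ∫ x, (closedBall c r).indicator (fun x => f0 x - c 0) x :=
      integral_sub_left_eq_self _ _ _
    have hneg : ∀ x, (closedBall c r).indicator (fun x => f0 x - c 0) ((c + c) - x) =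
        -(closedBall c r).indicator (fun x => f0 x - c 0) x := by
      intro x
      have hmem : ((c + c) - x ∈ closedBall c r) ↔ x ∈ closedBall c r := by
        rw [mem_closedBall, mem_closedBall, dist_eq_norm, dist_eq_norm]
        have : c + c - x - c = -(x - c) := by abel
        rw [this, norm_neg]
      by_cases hx : x ∈ closedBall c r
      · rw [indicator_of_mem (hmem.mpr hx), indicator_of_mem hx]
        simp only [f0, Pi.sub_apply, Pi.add_apply]
        ring
      · rw [indicator_of_notMem (fun h => hx (hmem.mp h)), indicator_of_notMem hx, neg_zero]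
    simp only [hneg] at hsymm
    rw [integral_neg] at hsymm
    rw [hI]
    linarith
  rw [integral_sub hint (integrable_const _), setIntegral_const, measureReal_def, smul_eq_mul] at h0
  unfold avg
  rw [cube_eq c hr, sub_eq_zero.mp h0]
  field_simp

/-- the measure parameter -/
noncomputable def VV (c : Fin n → ℝ) (r : ℝ) : ℝ≥0∞ :=
  max (volume (cube c r) / 2) ((volume.restrict (cube c r)) {x | 1 < ENNReal.ofReal |f0 x - c 0|})

theorem VV_lt (c : Fin n → ℝ) {r : ℝ} (hr : 0 < r) : VV c r < volume (cube c r) := by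
  have hV0 : volume (cube c r) ≠ 0 := by rw [cube_eq c hr]; exact (vol_closedBall_pos c hr).ne'
  have hVt : volume (cube c r) ≠ ∞ := by rw [cube_eq c hr]; exact vol_closedBall_ne_top c r
  unfold VV
  refine max_lt (ENNReal.half_lt_self hV0 hVt) ?_
  rw [cube_eq c hr] at hV0 hVt ⊢
  set s := min r 1 with hs
  have hs0 : 0 < s := lt_min hr one_pos
  have hsub : closedBall c s ⊆ closedBall c r := closedBall_subset_closedBall (min_le_left _ _)
  have hm : MeasurableSet {x : Fin n → ℝ | 1 < ENNReal.ofReal |f0 x - c 0|} :=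
    measurableSet_lt measurable_const
      ((continuous_f0.measurable.sub_const _).abs.ennreal_ofReal)
  rw [Measure.restrict_apply hm]
  have hsub2 : {x : Fin n → ℝ | 1 < ENNReal.ofReal |f0 x - c 0|} ∩ closedBall c r ⊆
      closedBall c r \ closedBall c s := by
    rintro x ⟨h1, h2⟩
    refine ⟨h2, fun h3 => ?_⟩
    have h4 := (dist_pi_le_iff hs0.le).mp (mem_closedBall.mp h3) 0
    rw [Real.dist_eq] at h4
    have h5 : (1 : ℝ≥0∞) < ENNReal.ofReal |f0 x - c 0| := h1
    rw [ENNReal.lt_ofReal_iff_toReal_lt one_ne_top, ENNReal.toReal_one] at h5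
    have h6 : |f0 x - c 0| ≤ s := h4
    have h7 : s ≤ 1 := min_le_right _ _
    linarith
  refine (measure_mono hsub2).trans_lt ?_
  rw [measure_sdiff hsub isClosed_closedBall.measurableSet.nullMeasurableSet
    (vol_closedBall_ne_top c s)]
  exact ENNReal.sub_lt_self hVt hV0 (vol_closedBall_pos c hs0).ne'

theorem VV_pos (c : Fin n → ℝ) {r : ℝ} (hr : 0 < r) : VV c r ≠ 0 := by
  have hV0 : volume (cube c r) ≠ 0 := by rw [cube_eq c hr]; exact (vol_closedBall_pos c hr).ne'
  unfold VV
  exact (lt_of_lt_of_le (ENNReal.half_pos hV0) (le_max_left _ _)).ne'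

/-- the family -/
noncomputable def YY (c : Fin n → ℝ) (r : ℝ) (g : (Fin n → ℝ) → ℝ) : ℝ≥0∞ :=
  snorm (cube c r) (VV c r) (1 / (1 + |r|)) g

theorem YY_family : IsFamily (YY : (Fin n → ℝ) → ℝ → ((Fin n → ℝ) → ℝ) → ℝ≥0∞) := by
  intro c r hr
  refine snorm_isQBFS hr (VV_pos c hr) (VV_lt c hr) (by positivity) ?_
  rw [div_le_one (by positivity)]
  linarith [abs_nonneg r]

theorem YY_le (c : Fin n → ℝ) {r : ℝ} (hr : 0 < r) (g : (Fin n → ℝ) → ℝ)
    (hg : AEMeasurable g (volume.restrict (cube c r))) :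
    YY c r g ≤ 3 * ((∫⁻ x in cube c r, ENNReal.ofReal |g x|) / volume (cube c r)) := by
  have hV0 : volume (cube c r) ≠ 0 := by rw [cube_eq c hr]; exact (vol_closedBall_pos c hr).ne'
  have hVt : volume (cube c r) ≠ ∞ := by rw [cube_eq c hr]; exact vol_closedBall_ne_top c r
  have h1 : star (volume.restrict (cube c r)) (VV c r) g ≤
      2 * ((∫⁻ x in cube c r, ENNReal.ofReal |g x|) / volume (cube c r)) := by
    refine (star_le_lintegral (VV_pos c hr) (VV_lt c hr).ne_top hg).trans ?_
    calc (∫⁻ x in cube c r, ENNReal.ofReal |g x|) / VV c r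
        ≤ (∫⁻ x in cube c r, ENNReal.ofReal |g x|) / (volume (cube c r) / 2) := by
          gcongr
          exact le_max_left _ _
      _ = 2 * ((∫⁻ x in cube c r, ENNReal.ofReal |g x|) / volume (cube c r)) := by
          rw [div_eq_mul_inv, ENNReal.inv_div (Or.inl (by norm_num)) (Or.inl (by norm_num)),
            ← mul_div_assoc, mul_comm, mul_div_assoc, ← mul_div_assoc]
  have h2 : wnorm (cube c r) (fun _ => 1 / (1 + |r|)) g ≤
      (∫⁻ x in cube c r, ENNReal.ofReal |g x|) / volume (cube c r) := by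
    unfold wnorm
    gcongr with x
    calc ENNReal.ofReal |g x| * ENNReal.ofReal (1 / (1 + |r|)) ≤ ENNReal.ofReal |g x| * 1 := by
          gcongr
          rw [← ENNReal.ofReal_one]
          apply ENNReal.ofReal_le_ofReal
          rw [div_le_one (by positivity)]
          linarith [abs_nonneg r]
      _ = _ := mul_one _
  unfold YY snorm
  refine (add_le_add h1 h2).trans (le_of_eq ?_)
  ring

theorem YY_normalized : IsNormalized (YY : (Fin n → ℝ) → ℝ → ((Fin n → ℝ) → ℝ) → ℝ≥0∞) := by
  refine ⟨1, 3, one_pos, fun c r hr => ⟨?_, ?_⟩⟩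
  · unfold YY snorm
    refine le_trans ?_ le_self_add
    rw [ENNReal.coe_one]
    unfold star
    apply le_sInf
    intro s hs
    by_contra hcon
    push Not at hcon
    have h1 : {x : Fin n → ℝ | s < ENNReal.ofReal |(1 : ℝ)|} = univ := by
      ext x
      simp only [mem_ofPred_eq, mem_univ, iff_true, abs_one, ENNReal.ofReal_one]
      exact hcon
    have hs' : (volume.restrict (cube c r)) {x : Fin n → ℝ | s < ENNReal.ofReal |(1 : ℝ)|} ≤
      VV c r := hs
    rw [h1, Measure.restrict_apply_univ] at hs'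
    exact absurd (VV_lt c hr) (not_lt.mpr hs')
  · refine (YY_le c hr _ measurable_const.aemeasurable).trans ?_
    rw [abs_one, ENNReal.ofReal_one, setLIntegral_const, one_mul]
    calc (3 : ℝ≥0∞) * (volume (cube c r) / volume (cube c r)) ≤ 3 * 1 := by
          gcongr; exact ENNReal.div_self_le_one
      _ = ((3 : ℝ≥0) : ℝ≥0∞) := by norm_num

theorem YY_emb : EmbBMO (YY : (Fin n → ℝ) → ℝ → ((Fin n → ℝ) → ℝ) → ℝ≥0∞) := by
  refine ⟨3, fun f hf _ => ?_⟩
  unfold bmoX bmo
  refine iSup_le fun c => iSup_le fun r => iSup_le fun hr => ?_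
  refine (YY_le c hr _ (hf.aestronglyMeasurable.aemeasurable.sub_const _).restrict).trans ?_
  rw [show ((3 : ℝ≥0) : ℝ≥0∞) = 3 by norm_num]
  gcongr
  exact le_iSup_of_le c (le_iSup_of_le r (le_iSup_of_le hr le_rfl))

theorem YY_f0 : bmoX YY (f0 : (Fin n → ℝ) → ℝ) ≤ 2 := by
  unfold bmoX
  refine iSup_le fun c => iSup_le fun r => iSup_le fun hr => ?_
  rw [avg_f0 c hr]
  have hV0 : volume (cube c r) ≠ 0 := by rw [cube_eq c hr]; exact (vol_closedBall_pos c hr).ne'
  have hVt : volume (cube c r) ≠ ∞ := by rw [cube_eq c hr]; exact vol_closedBall_ne_top c r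
  have h1 : star (volume.restrict (cube c r)) (VV c r) (fun x => f0 x - c 0) ≤ 1 := by
    apply star_le
    exact le_max_right _ _
  have h2 : wnorm (cube c r) (fun _ => 1 / (1 + |r|)) (fun x => f0 x - c 0) ≤ 1 := by
    unfold wnorm
    rw [ENNReal.div_le_iff hV0 hVt, one_mul]
    calc ∫⁻ x in cube c r, ENNReal.ofReal |f0 x - c 0| * ENNReal.ofReal (1 / (1 + |r|))
        ≤ ∫⁻ x in cube c r, 1 := by
          rw [cube_eq c hr]
          apply setLIntegral_mono measurable_const
          intro x hx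
          have h4 := (dist_pi_le_iff hr.le).mp (mem_closedBall.mp hx) 0
          rw [Real.dist_eq] at h4
          have h5 : |f0 x - c 0| ≤ r := h4
          rw [← ENNReal.ofReal_mul (abs_nonneg _), ← ENNReal.ofReal_one]
          apply ENNReal.ofReal_le_ofReal
          rw [mul_one_div, div_le_one (by positivity), abs_of_pos hr]
          linarith
      _ = volume (cube c r) := by rw [setLIntegral_const, one_mul]
  unfold YY snorm
  calc _ ≤ (1 : ℝ≥0∞) + 1 := add_le_add h1 h2
    _ = 2 := by norm_num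

theorem bmo_f0 (j : ℕ) (hj : 0 < j) :
    ENNReal.ofReal ((1 / 4) ^ n * (j / 2)) ≤ bmo (f0 : (Fin n → ℝ) → ℝ) := by
  have hjR : (0 : ℝ) < j := by exact_mod_cast hj
  set e : Fin n → ℝ := Pi.single 0 (3 / 4 * (j : ℝ)) with he
  have he0 : e 0 = 3 / 4 * (j : ℝ) := by rw [he, Pi.single_eq_same]
  have hen : ‖e‖ ≤ 3 / 4 * j := (pi_norm_le_iff_of_nonneg (by positivity)).mpr (fun i => by
    rw [he]
    by_cases hi : i = 0
    · subst hi; rw [Pi.single_eq_same, Real.norm_eq_abs, abs_of_nonneg (by positivity)]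
    · rw [Pi.single_eq_of_ne hi, norm_zero]; positivity)
  have hsub : closedBall e (j / 4 : ℝ) ⊆ closedBall (0 : Fin n → ℝ) j := by
    apply closedBall_subset_closedBall'
    rw [dist_zero_right]
    linarith
  have hge : (∫⁻ x in cube (0 : Fin n → ℝ) (j : ℝ),
      ENNReal.ofReal |f0 x - avg f0 (0 : Fin n → ℝ) (j : ℝ)|) /
      volume (cube (0 : Fin n → ℝ) (j : ℝ)) ≤ bmo (f0 : (Fin n → ℝ) → ℝ) := by
    unfold bmo
    exact le_iSup_of_le 0 (le_iSup_of_le (j : ℝ) (le_iSup_of_le hjR le_rfl))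
  refine le_trans ?_ hge
  rw [avg_f0 0 hjR, cube_eq 0 hjR]
  have hV0 : volume (closedBall (0 : Fin n → ℝ) j) ≠ 0 := (vol_closedBall_pos 0 hjR).ne'
  rw [ENNReal.le_div_iff_mul_le (Or.inl hV0) (Or.inl (vol_closedBall_ne_top 0 _))]
  calc ENNReal.ofReal ((1 / 4) ^ n * (j / 2)) * volume (closedBall (0 : Fin n → ℝ) j)
      = ENNReal.ofReal (j / 2) * volume (closedBall e (j / 4 : ℝ)) := by
        rw [vol_closedBall _ hjR, vol_closedBall _ (by positivity),
          ← ENNReal.ofReal_mul (by positivity), ← ENNReal.ofReal_mul (by positivity)]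
        congr 1
        have : (2 * ((j : ℝ) / 4)) ^ n = (1 / 4) ^ n * (2 * j) ^ n := by
          rw [← mul_pow]; congr 1; ring
        rw [this]; ring
    _ = ∫⁻ x in closedBall e (j / 4 : ℝ), ENNReal.ofReal (j / 2) := by
        rw [setLIntegral_const]
    _ ≤ ∫⁻ x in closedBall e (j / 4 : ℝ), ENNReal.ofReal |f0 x - (0 : Fin n → ℝ) 0| := by
        have hmf : Measurable (fun x : Fin n → ℝ =>
            ENNReal.ofReal |f0 x - (0 : Fin n → ℝ) 0|) :=
          (continuous_f0.measurable.sub_const _).abs.ennreal_ofReal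
        apply setLIntegral_mono hmf
        · intro x hx
          have h4 := (dist_pi_le_iff (by positivity)).mp (mem_closedBall.mp hx) (0 : Fin n)
          rw [Real.dist_eq, he0, abs_le] at h4
          apply ENNReal.ofReal_le_ofReal
          simp only [f0, Pi.zero_apply, sub_zero]
          refine le_trans ?_ (le_abs_self _)
          linarith
    _ ≤ _ := lintegral_mono_set hsub

theorem YY_not : ¬ EmbBMOX (YY : (Fin n → ℝ) → ℝ → ((Fin n → ℝ) → ℝ) → ℝ≥0∞) := by
  rintro ⟨C, hC⟩
  have h1 := hC f0 continuous_f0.locallyIntegrable (YY_f0.trans_lt (by norm_num))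
  have h2 : bmo (f0 : (Fin n → ℝ) → ℝ) ≤ (2 * C : ℝ≥0) := by
    calc _ ≤ (C : ℝ≥0∞) * bmoX YY f0 := h1
      _ ≤ C * 2 := by gcongr; exact YY_f0
      _ = (2 * C : ℝ≥0) := by push_cast; rw [mul_comm]
  obtain ⟨j, hj⟩ := exists_nat_gt (4 * (C : ℝ) * 4 ^ n)
  have hC0 : (0 : ℝ) ≤ C := C.coe_nonneg
  have hjpos : 0 < j := by
    have : (0 : ℝ) < j := lt_of_le_of_lt (by positivity) hj
    exact_mod_cast this
  have h3 := (bmo_f0 (n := n) j hjpos).trans h2
  rw [← ENNReal.ofReal_coe_nnreal] at h3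
  have h4 := (ENNReal.ofReal_le_ofReal_iff (NNReal.coe_nonneg _)).mp h3
  push_cast at h4
  have h5 : (1 / 4 : ℝ) ^ n * 4 ^ n = 1 := by rw [← mul_pow]; norm_num
  have h6 : (j : ℝ) ≤ 4 * C * 4 ^ n := by
    calc (j : ℝ) = ((1 / 4) ^ n * 4 ^ n) * j := by rw [h5, one_mul]
      _ = 2 * (((1 / 4) ^ n * (j / 2)) * 4 ^ n) := by ring
      _ ≤ 2 * ((2 * C) * 4 ^ n) := by gcongr
      _ = 4 * C * 4 ^ n := by ring
  linarith

end Pool.Agent.H54B
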