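import Mathlib
import Pool.Agent.H54B.Defs
import Pool.Agent.H54B.Cover
import Pool.Agent.H54B.Main
import Pool.Agent.H54B.Weighted

set_option autoImplicit false

namespace Pool.Agent.H54B

open MeasureTheory Metric Set Filter Topology ENNReal NNReal

/-- Bumps of height `j` on `[8j, 8j+1)`. -/
noncomputable def bump (t : ℝ) : ℝ := if t - 8 * (⌊t / 8⌋ : ℝ) < 1 then (⌊t / 8⌋ : ℝ) else 0

theorem measurable_bump : Measurable bump := by
  unfold bump
  have h : Measurable (fun t : ℝ => (⌊t / 8⌋ : ℝ)) := by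
    have h1 : Measurable (fun t : ℝ => ⌊t / 8⌋) := Int.measurable_floor.comp (by fun_prop)
    have h2 : Measurable (fun k : ℤ => (k : ℝ)) := measurable_from_top
    exact h2.comp h1
  refine Measurable.ite ?_ h measurable_const
  exact measurableSet_lt (measurable_id.sub (h.const_mul 8)) measurable_const

theorem bump_ne_zero {t : ℝ} (h : bump t ≠ 0) :
    8 * (⌊t / 8⌋ : ℝ) ≤ t ∧ t < 8 * (⌊t / 8⌋ : ℝ) + 1 ∧ bump t = ⌊t / 8⌋ := by
  unfold bump at h ⊢
  split_ifs at h ⊢ with h1
  · refine ⟨?_, by linarith, rfl⟩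
    have := Int.floor_le (t / 8)
    linarith
  · exact absurd rfl h

theorem bump_eq_of_mem {j : ℤ} {t : ℝ} (h1 : 8 * (j : ℝ) ≤ t) (h2 : t < 8 * j + 1) :
    bump t = j := by
  have hj : ⌊t / 8⌋ = j := by
    rw [Int.floor_eq_iff]
    constructor <;> linarith
  unfold bump
  rw [hj, if_pos (by linarith)]

theorem bump_eq_zero {j : ℤ} {t : ℝ} (h1 : 8 * (j : ℝ) + 1 ≤ t) (h2 : t < 8 * j + 8) :
    bump t = 0 := by
  have hj : ⌊t / 8⌋ = j := by
    rw [Int.floor_eq_iff]
    constructor <;> linarith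
  unfold bump
  rw [hj, if_neg (by linarith)]

theorem bump_near {t t' : ℝ} (h : bump t ≠ 0) (h' : bump t' ≠ 0) (hd : |t - t'| ≤ 4) :
    bump t = bump t' := by
  obtain ⟨a1, a2, a3⟩ := bump_ne_zero h
  obtain ⟨b1, b2, b3⟩ := bump_ne_zero h'
  rw [abs_le] at hd
  have h1 : ((⌊t / 8⌋ : ℤ) : ℝ) < ⌊t' / 8⌋ + 1 := by linarith
  have h2 : ((⌊t' / 8⌋ : ℤ) : ℝ) < ⌊t / 8⌋ + 1 := by linarith
  have h1' : ⌊t / 8⌋ < ⌊t' / 8⌋ + 1 := by exact_mod_cast h1
  have h2' : ⌊t' / 8⌋ < ⌊t / 8⌋ + 1 := by exact_mod_cast h2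
  have : ⌊t / 8⌋ = ⌊t' / 8⌋ := by omega
  rw [a3, b3, this]

theorem bump_shift {t : ℝ} (h : bump t ≠ 0) : bump (t + 2) = 0 := by
  obtain ⟨a1, a2, a3⟩ := bump_ne_zero h
  exact bump_eq_zero (j := ⌊t / 8⌋) (by linarith) (by linarith)

variable {n : ℕ} [NeZero n]

/-- The function on `ℝⁿ`. -/
noncomputable def fb (x : Fin n → ℝ) : ℝ := bump (x 0)

theorem measurable_fb : Measurable (fb : (Fin n → ℝ) → ℝ) :=
  measurable_bump.comp (measurable_pi_apply 0)

/-- In every cube, `fb` takes one value on a fixed portion. -/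
theorem exists_value (c : Fin n → ℝ) {r : ℝ} (hr : 0 < r) :
    ∃ v : ℝ, volume (closedBall c r) ≤
      ENNReal.ofReal (2 ^ (n + 1)) * volume ({x | fb x = v} ∩ closedBall c r) := by
  have hms : ∀ v : ℝ, MeasurableSet {x : Fin n → ℝ | fb x = v} := fun v =>
    measurable_fb (measurableSet_singleton v)
  have hc0 : ∀ x ∈ closedBall c r, |x 0 - c 0| ≤ r := by
    intro x hx
    have := (dist_pi_le_iff hr.le).mp (mem_closedBall.mp hx) 0
    rwa [Real.dist_eq] at this
  rcases le_or_gt r 2 with hr2 | hr2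
  · -- two values
    have h2n : (2 : ℝ≥0∞) ≤ ENNReal.ofReal (2 ^ (n + 1)) := by
      have : (2 : ℝ≥0∞) = ENNReal.ofReal 2 := by norm_num
      rw [this]
      apply ENNReal.ofReal_le_ofReal
      calc (2 : ℝ) = 2 ^ 1 := (pow_one _).symm
        _ ≤ 2 ^ (n + 1) := pow_le_pow_right₀ (by norm_num) (by omega)
    obtain ⟨v, hv⟩ : ∃ v : ℝ, ∀ x ∈ closedBall c r, fb x = 0 ∨ fb x = v := by
      by_cases hz : ∀ x ∈ closedBall c r, fb x = 0
      · exact ⟨0, fun x hx => Or.inl (hz x hx)⟩
      · push Not at hz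
        obtain ⟨x1, hx1, hx1'⟩ := hz
        refine ⟨fb x1, fun x hx => ?_⟩
        by_cases hx0 : fb x = 0
        · exact Or.inl hx0
        · right
          apply bump_near hx0 hx1'
          have a1 := hc0 x hx
          have a2 := hc0 x1 hx1
          calc |x 0 - x1 0| = |(x 0 - c 0) - (x1 0 - c 0)| := by ring_nf
            _ ≤ |x 0 - c 0| + |x1 0 - c 0| := abs_sub _ _
            _ ≤ 4 := by linarith
    have hcov : closedBall c r ⊆ ({x | fb x = 0} ∩ closedBall c r) ∪
        ({x | fb x = v} ∩ closedBall c r) := by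
      intro x hx
      rcases hv x hx with h | h
      · exact Or.inl ⟨h, hx⟩
      · exact Or.inr ⟨h, hx⟩
    have hsum : volume (closedBall c r) ≤ volume ({x | fb x = 0} ∩ closedBall c r) +
        volume ({x | fb x = v} ∩ closedBall c r) :=
      (measure_mono hcov).trans (measure_union_le _ _)
    rcases le_total (volume ({x | fb x = 0} ∩ closedBall c r))
      (volume ({x | fb x = v} ∩ closedBall c r)) with h | h
    · refine ⟨v, hsum.trans ?_⟩
      calc _ ≤ volume ({x | fb x = v} ∩ closedBall c r) +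
            volume ({x | fb x = v} ∩ closedBall c r) := by gcongr
        _ = 2 * volume ({x | fb x = v} ∩ closedBall c r) := (two_mul _).symm
        _ ≤ _ := by gcongr
    · refine ⟨0, hsum.trans ?_⟩
      calc _ ≤ volume ({x | fb x = 0} ∩ closedBall c r) +
            volume ({x | fb x = 0} ∩ closedBall c r) := by gcongr
        _ = 2 * volume ({x | fb x = 0} ∩ closedBall c r) := (two_mul _).symm
        _ ≤ _ := by gcongr
  · -- large cubes
    refine ⟨0, ?_⟩
    set e : Fin n → ℝ := Pi.single 0 1 with he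
    have hesub : ∀ i, |e i| ≤ 1 := by
      intro i
      rw [he]
      by_cases hi : i = 0
      · subst hi; simp
      · rw [Pi.single_eq_of_ne hi]; simp
    set D := closedBall (c - e) (r - 1) with hD
    have hDB : D ⊆ closedBall c r := by
      apply closedBall_subset_closedBall'
      rw [dist_eq_norm, sub_sub_cancel_left, norm_neg]
      have : ‖e‖ ≤ 1 := (pi_norm_le_iff_of_nonneg zero_le_one).mpr (fun i => by
        rw [Real.norm_eq_abs]; exact hesub i)
      linarith
    have hDB' : ∀ x ∈ D, x + (2 : ℝ) • e ∈ closedBall c r := by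
      intro x hx
      rw [mem_closedBall, dist_eq_norm] at hx ⊢
      have h1 : x + (2 : ℝ) • e - c = (x - (c - e)) + e := by
        rw [two_smul]; abel
      rw [h1]
      have : ‖e‖ ≤ 1 := (pi_norm_le_iff_of_nonneg zero_le_one).mpr (fun i => by
        rw [Real.norm_eq_abs]; exact hesub i)
      calc ‖x - (c - e) + e‖ ≤ ‖x - (c - e)‖ + ‖e‖ := norm_add_le _ _
        _ ≤ r := by linarith
    have hcov : D ⊆ ({x | fb x = 0} ∩ closedBall c r) ∪
        ((fun x => x + (2 : ℝ) • e) ⁻¹' ({x | fb x = 0} ∩ closedBall c r)) := by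
      intro x hx
      by_cases hx0 : fb x = 0
      · exact Or.inl ⟨hx0, hDB hx⟩
      · right
        refine ⟨?_, hDB' x hx⟩
        have : (x + (2 : ℝ) • e) 0 = x 0 + 2 := by simp [he]
        change bump ((x + (2 : ℝ) • e) 0) = 0
        rw [this]
        exact bump_shift hx0
    have hvol : volume D ≤ 2 * volume ({x | fb x = 0} ∩ closedBall c r) := by
      calc volume D ≤ volume ({x | fb x = 0} ∩ closedBall c r) +
            volume ((fun x => x + (2 : ℝ) • e) ⁻¹' ({x | fb x = 0} ∩ closedBall c r)) :=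
            (measure_mono hcov).trans (measure_union_le _ _)
        _ = 2 * volume ({x | fb x = 0} ∩ closedBall c r) := by
            rw [measure_preimage_add_right, two_mul]
    calc volume (closedBall c r) = ENNReal.ofReal ((2 * r) ^ n) := vol_closedBall c hr
      _ ≤ ENNReal.ofReal (2 ^ n) * volume D := by
          rw [hD, vol_closedBall _ (by linarith), ← ENNReal.ofReal_mul (by positivity), ← mul_pow]
          apply ENNReal.ofReal_le_ofReal
          gcongr
          linarith
      _ ≤ ENNReal.ofReal (2 ^ n) * (2 * volume ({x | fb x = 0} ∩ closedBall c r)) := by gcongr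
      _ = ENNReal.ofReal (2 ^ (n + 1)) * volume ({x | fb x = 0} ∩ closedBall c r) := by
          rw [pow_succ, ENNReal.ofReal_mul (by positivity), mul_assoc]
          norm_num

/-- the chosen value -/
noncomputable def vv (c : Fin n → ℝ) (r : ℝ) : ℝ :=
  if h : 0 < r then (exists_value c h).choose else 0

theorem vv_spec (c : Fin n → ℝ) {r : ℝ} (hr : 0 < r) : volume (closedBall c r) ≤
      ENNReal.ofReal (2 ^ (n + 1)) * volume ({x | fb x = vv c r} ∩ closedBall c r) := by
  unfold vv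
  rw [dif_pos hr]
  exact (exists_value c hr).choose_spec

/-- the mean deviation -/
noncomputable def dev (c : Fin n → ℝ) (r : ℝ) : ℝ≥0∞ :=
  (∫⁻ x in cube c r, ENNReal.ofReal |fb x - vv c r|) / volume (cube c r)

theorem dev_lt_top (c : Fin n → ℝ) {r : ℝ} (hr : 0 < r) : dev c r < ∞ := by
  unfold dev
  rw [cube_eq c hr]
  apply ENNReal.div_lt_top _ (vol_closedBall_pos c hr).ne'
  have hbd : ∀ x ∈ closedBall c r, ENNReal.ofReal |fb x - vv c r| ≤
      ENNReal.ofReal (|c 0| + r + 9 + |vv c r|) := by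
    intro x hx
    apply ENNReal.ofReal_le_ofReal
    have h0 : |x 0 - c 0| ≤ r := by
      have := (dist_pi_le_iff hr.le).mp (mem_closedBall.mp hx) 0
      rwa [Real.dist_eq] at this
    have h1 : |fb x| ≤ |c 0| + r + 9 := by
      by_cases hb : fb x = 0
      · rw [hb, abs_zero]; positivity
      · obtain ⟨a1, a2, a3⟩ := bump_ne_zero hb
        change |bump (x 0)| ≤ _
        rw [a3]
        have h3 : |x 0| ≤ |c 0| + r := by
          calc |x 0| = |c 0 + (x 0 - c 0)| := by ring_nf
            _ ≤ |c 0| + |x 0 - c 0| := abs_add_le _ _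
            _ ≤ _ := by linarith
        rw [abs_le] at h3 ⊢
        obtain ⟨h4, h5⟩ := h3
        constructor
        · by_cases hs : (0 : ℝ) ≤ ⌊x 0 / 8⌋
          · linarith [abs_nonneg (c 0)]
          · push Not at hs; linarith
        · by_cases hs : (0 : ℝ) ≤ ⌊x 0 / 8⌋
          · linarith
          · push Not at hs; linarith [abs_nonneg (c 0)]
    calc |fb x - vv c r| ≤ |fb x| + |vv c r| := abs_sub _ _
      _ ≤ _ := by linarith
  refine ne_top_of_le_ne_top ?_ (setLIntegral_mono measurable_const hbd)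
  rw [setLIntegral_const]
  exact ENNReal.mul_ne_top ENNReal.ofReal_ne_top (vol_closedBall_ne_top c r)

/-- the small weight -/
noncomputable def eps (c : Fin n → ℝ) (r : ℝ) : ℝ := 1 / (1 + (dev c r).toReal)

theorem eps_pos (c : Fin n → ℝ) (r : ℝ) : 0 < eps c r := by unfold eps; positivity
theorem eps_le (c : Fin n → ℝ) (r : ℝ) : eps c r ≤ 1 := by
  unfold eps
  rw [div_le_one (by positivity)]
  linarith [ENNReal.toReal_nonneg (a := dev c r)]

/-- the weight -/
noncomputable def wt (c : Fin n → ℝ) (r : ℝ) (x : Fin n → ℝ) : ℝ :=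
  if fb x = vv c r then 1 else eps c r

theorem measurable_wt (c : Fin n → ℝ) (r : ℝ) : Measurable (wt c r) :=
  Measurable.ite (measurable_fb (measurableSet_singleton _)) measurable_const measurable_const

theorem wt_ge (c : Fin n → ℝ) (r : ℝ) (x : Fin n → ℝ) : eps c r ≤ wt c r x := by
  unfold wt; split_ifs
  · exact eps_le c r
  · exact le_rfl
theorem wt_le (c : Fin n → ℝ) (r : ℝ) (x : Fin n → ℝ) : wt c r x ≤ 1 := by
  unfold wt; split_ifs
  · exact le_rfl
  · exact eps_le c r

/-- The family. -/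
noncomputable def XX (c : Fin n → ℝ) (r : ℝ) (g : (Fin n → ℝ) → ℝ) : ℝ≥0∞ :=
  wnorm (cube c r) (wt c r) g

theorem XX_family : IsFamily (XX : (Fin n → ℝ) → ℝ → ((Fin n → ℝ) → ℝ) → ℝ≥0∞) := fun c r hr =>
  (wnorm_isQBFS hr (measurable_wt c r) (eps_pos c r) (wt_ge c r) (wt_le c r)).1

theorem XX_uniform : UniformQuasi (XX : (Fin n → ℝ) → ℝ → ((Fin n → ℝ) → ℝ) → ℝ≥0∞) 1 := by
  intro c r hr f g hf hg
  rw [ENNReal.coe_one, one_mul]
  exact (wnorm_isQBFS hr (measurable_wt c r) (eps_pos c r) (wt_ge c r) (wt_le c r)).2 f g hf hg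

theorem XX_le (c : Fin n → ℝ) (r : ℝ) (g : (Fin n → ℝ) → ℝ) :
    XX c r g ≤ (∫⁻ x in cube c r, ENNReal.ofReal |g x|) / volume (cube c r) := by
  unfold XX wnorm
  gcongr with x
  calc ENNReal.ofReal |g x| * ENNReal.ofReal (wt c r x) ≤ ENNReal.ofReal |g x| * 1 := by
        gcongr
        rw [← ENNReal.ofReal_one]
        exact ENNReal.ofReal_le_ofReal (wt_le c r x)
    _ = _ := mul_one _

theorem XX_normalized : IsNormalized (XX : (Fin n → ℝ) → ℝ → ((Fin n → ℝ) → ℝ) → ℝ≥0∞) := by
  refine ⟨(2 ^ (n + 1))⁻¹, 1, by positivity, fun c r hr => ⟨?_, ?_⟩⟩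
  · have hV0 : volume (cube c r) ≠ 0 := by rw [cube_eq c hr]; exact (vol_closedBall_pos c hr).ne'
    have hVt : volume (cube c r) ≠ ∞ := by rw [cube_eq c hr]; exact vol_closedBall_ne_top c r
    have hm : MeasurableSet {x : Fin n → ℝ | fb x = vv c r} :=
      measurable_fb (measurableSet_singleton _)
    have h1 : volume ({x | fb x = vv c r} ∩ cube c r) ≤
        ∫⁻ x in cube c r, ENNReal.ofReal |(1 : ℝ)| * ENNReal.ofReal (wt c r x) := by
      rw [← Measure.restrict_apply hm, ← lintegral_indicator_one hm]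
      apply lintegral_mono
      intro x
      by_cases hx : fb x = vv c r
      · rw [indicator_of_mem (by exact hx)]
        simp [wt, hx]
      · rw [indicator_of_notMem (by exact hx)]
        exact bot_le
    have h2 := vv_spec c hr
    rw [← cube_eq c hr] at h2
    unfold XX wnorm
    rw [ENNReal.le_div_iff_mul_le (Or.inl hV0) (Or.inl hVt)]
    refine le_trans ?_ h1
    have e1 : (((2 ^ (n + 1))⁻¹ : ℝ≥0) : ℝ≥0∞) * ENNReal.ofReal (2 ^ (n + 1)) = 1 := by
      rw [← ENNReal.ofReal_coe_nnreal, ← ENNReal.ofReal_mul (by positivity)]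
      push_cast
      rw [inv_mul_cancel₀ (by positivity), ENNReal.ofReal_one]
    calc (((2 ^ (n + 1))⁻¹ : ℝ≥0) : ℝ≥0∞) * volume (cube c r)
        ≤ (((2 ^ (n + 1))⁻¹ : ℝ≥0) : ℝ≥0∞) *
          (ENNReal.ofReal (2 ^ (n + 1)) * volume ({x | fb x = vv c r} ∩ cube c r)) := by gcongr
      _ = volume ({x | fb x = vv c r} ∩ cube c r) := by rw [← mul_assoc, e1, one_mul]
  · refine (XX_le c r _).trans ?_
    rw [abs_one, ENNReal.ofReal_one, setLIntegral_const, one_mul, ENNReal.coe_one]
    exact ENNReal.div_self_le_one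

theorem XX_emb : EmbBMO (XX : (Fin n → ℝ) → ℝ → ((Fin n → ℝ) → ℝ) → ℝ≥0∞) := by
  refine ⟨1, fun f _ _ => ?_⟩
  rw [ENNReal.coe_one, one_mul]
  unfold bmoX bmo
  exact iSup_mono fun c => iSup_mono fun r => iSup_mono fun _ => XX_le c r _

theorem XX_star : bmoXStar (XX : (Fin n → ℝ) → ℝ → ((Fin n → ℝ) → ℝ) → ℝ≥0∞) fb ≤ 1 := by
  unfold bmoXStar
  refine iSup_le fun c => iSup_le fun r => iSup_le fun hr => iInf_le_of_le (vv c r) ?_
  have h1 : XX c r (fun x => fb x - vv c r) = ENNReal.ofReal (eps c r) * dev c r := by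
    unfold XX wnorm dev
    rw [← mul_div_assoc, ← lintegral_const_mul' _ _ ENNReal.ofReal_ne_top]
    congr 2
    funext x
    by_cases hx : fb x = vv c r
    · simp [hx]
    · simp only [wt, if_neg hx]
      rw [mul_comm]
  rw [h1]
  have h2 : dev c r = ENNReal.ofReal (dev c r).toReal := (ENNReal.ofReal_toReal (dev_lt_top c hr).ne).symm
  rw [h2, ← ENNReal.ofReal_mul (eps_pos c r).le, ← ENNReal.ofReal_one]
  apply ENNReal.ofReal_le_ofReal
  unfold eps
  rw [one_div, inv_mul_le_iff₀ (by positivity)]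
  linarith

theorem bmo_fb (j : ℕ) : ENNReal.ofReal ((1 / 4) ^ n * j) ≤ bmo (fb : (Fin n → ℝ) → ℝ) := by
  -- the cube centred at `(8 j + 1) e_0` with half side one
  set c : Fin n → ℝ := Pi.single 0 (8 * (j : ℝ) + 1) with hc
  have hc0 : c 0 = 8 * (j : ℝ) + 1 := by rw [hc, Pi.single_eq_same]
  set e : Fin n → ℝ := Pi.single 0 (1 / 2) with he
  have he0 : e 0 = 1 / 2 := by rw [he, Pi.single_eq_same]
  have hen : ‖e‖ ≤ 1 / 2 := (pi_norm_le_iff_of_nonneg (by norm_num)).mpr (fun i => by
    rw [he]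
    by_cases hi : i = 0
    · subst hi; rw [Pi.single_eq_same, Real.norm_eq_abs, abs_of_nonneg (by norm_num)]
    · rw [Pi.single_eq_of_ne hi, norm_zero]; norm_num)
  set B := closedBall c 1 with hB
  set B1 := closedBall (c - e) (1 / 4) with hB1
  set B2 := closedBall (c + e) (1 / 4) with hB2
  have hcoord : ∀ (p : Fin n → ℝ) (x : Fin n → ℝ), x ∈ closedBall p (1 / 4) → |x 0 - p 0| ≤ 1 / 4 := by
    intro p x hx
    have := (dist_pi_le_iff (by norm_num)).mp (mem_closedBall.mp hx) 0
    rwa [Real.dist_eq] at this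
  have hB1B : B1 ⊆ B := by
    apply closedBall_subset_closedBall'
    rw [dist_eq_norm, sub_sub_cancel_left, norm_neg]
    linarith
  have hB2B : B2 ⊆ B := by
    apply closedBall_subset_closedBall'
    rw [dist_eq_norm, add_sub_cancel_left]
    linarith
  have hf1 : ∀ x ∈ B1, fb x = j := by
    intro x hx
    have h1 := hcoord _ x hx
    rw [Pi.sub_apply, hc0, he0, abs_le] at h1
    have := bump_eq_of_mem (j := (j : ℤ)) (t := x 0) (by push_cast; linarith)
      (by push_cast; linarith)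
    simpa [fb] using this
  have hf2 : ∀ x ∈ B2, fb x = 0 := by
    intro x hx
    have h1 := hcoord _ x hx
    rw [Pi.add_apply, hc0, he0, abs_le] at h1
    exact bump_eq_zero (j := (j : ℤ)) (t := x 0) (by push_cast; linarith)
      (by push_cast; linarith)
  have hdisj : Disjoint B1 B2 := by
    rw [Set.disjoint_left]
    intro x h1 h2
    have a1 := hcoord _ x h1
    have a2 := hcoord _ x h2
    rw [Pi.sub_apply, hc0, he0, abs_le] at a1
    rw [Pi.add_apply, hc0, he0, abs_le] at a2
    linarith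
  have hV : volume B = ENNReal.ofReal (2 ^ n) := by
    rw [hB, vol_closedBall _ one_pos, mul_one]
  have hV1 : volume B1 = ENNReal.ofReal ((1 / 2) ^ n) := by
    rw [hB1, vol_closedBall _ (by norm_num)]; norm_num
  have hV2 : volume B2 = ENNReal.ofReal ((1 / 2) ^ n) := by
    rw [hB2, vol_closedBall _ (by norm_num)]; norm_num
  set m := avg (fb : (Fin n → ℝ) → ℝ) c 1 with hm
  have hlow : ENNReal.ofReal ((1 / 2) ^ n * j) ≤ ∫⁻ x in B, ENNReal.ofReal |fb x - m| := by
    calc ENNReal.ofReal ((1 / 2) ^ n * j)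
        ≤ ENNReal.ofReal |(j : ℝ) - m| * volume B1 + ENNReal.ofReal |0 - m| * volume B2 := by
          rw [hV1, hV2, ← ENNReal.ofReal_mul (abs_nonneg _), ← ENNReal.ofReal_mul (abs_nonneg _),
            ← ENNReal.ofReal_add (by positivity) (by positivity)]
          apply ENNReal.ofReal_le_ofReal
          have : (j : ℝ) ≤ |(j : ℝ) - m| + |0 - m| := by
            have h1 := le_abs_self ((j : ℝ) - m)
            have h2 : m ≤ |0 - m| := by rw [zero_sub, abs_neg]; exact le_abs_self m
            linarith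
          have hp : (0 : ℝ) < (1 / 2) ^ n := by positivity
          nlinarith
      _ = (∫⁻ x in B1, ENNReal.ofReal |fb x - m|) + ∫⁻ x in B2, ENNReal.ofReal |fb x - m| := by
          congr 1
          · rw [← setLIntegral_const]
            apply setLIntegral_congr_fun isClosed_closedBall.measurableSet
            intro x hx
            simp only [hf1 x hx]
          · rw [← setLIntegral_const]
            apply setLIntegral_congr_fun isClosed_closedBall.measurableSet
            intro x hx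
            simp only [hf2 x hx]
      _ = ∫⁻ x in B1 ∪ B2, ENNReal.ofReal |fb x - m| := by
          rw [lintegral_union isClosed_closedBall.measurableSet hdisj]
      _ ≤ _ := lintegral_mono_set (union_subset hB1B hB2B)
  have hge : (∫⁻ x in cube c 1, ENNReal.ofReal |fb x - avg fb c 1|) / volume (cube c 1) ≤
      bmo (fb : (Fin n → ℝ) → ℝ) := by
    unfold bmo
    exact le_iSup_of_le c (le_iSup_of_le 1 (le_iSup_of_le one_pos le_rfl))
  refine le_trans ?_ hge
  rw [cube_eq c one_pos]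
  have hV0 : volume B ≠ 0 := (vol_closedBall_pos c one_pos).ne'
  rw [ENNReal.le_div_iff_mul_le (Or.inl hV0) (Or.inl (vol_closedBall_ne_top c 1))]
  refine le_trans (le_of_eq ?_) hlow
  rw [hV, ← ENNReal.ofReal_mul (by positivity)]
  congr 1
  have : ((1 : ℝ) / 4) ^ n * 2 ^ n = (1 / 2) ^ n := by rw [← mul_pow]; norm_num
  calc ((1 : ℝ) / 4) ^ n * j * 2 ^ n = (((1 : ℝ) / 4) ^ n * 2 ^ n) * j := by ring
    _ = _ := by rw [this]

theorem XX_not_star : ¬ EmbBMOXStar (XX : (Fin n → ℝ) → ℝ → ((Fin n → ℝ) → ℝ) → ℝ≥0∞) := by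
  rintro ⟨C, hC⟩
  have h1 := (hC fb measurable_fb.aemeasurable (XX_star.trans_lt one_lt_top)).2
  have h2 : bmo (fb : (Fin n → ℝ) → ℝ) ≤ C := by
    calc _ ≤ (C : ℝ≥0∞) * bmoXStar XX fb := h1
      _ ≤ C * 1 := by gcongr; exact XX_star
      _ = C := mul_one _
  obtain ⟨j, hj⟩ := exists_nat_gt ((C : ℝ) * 4 ^ n)
  have h3 := (bmo_fb (n := n) j).trans h2
  rw [← ENNReal.ofReal_coe_nnreal] at h3
  have h4 := (ENNReal.ofReal_le_ofReal_iff C.coe_nonneg).mp h3
  have h5 : (1 / 4 : ℝ) ^ n * 4 ^ n = 1 := by rw [← mul_pow]; norm_num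
  have h6 : (j : ℝ) ≤ C * 4 ^ n := by
    calc (j : ℝ) = ((1 / 4) ^ n * 4 ^ n) * j := by rw [h5, one_mul]
      _ = ((1 / 4) ^ n * j) * 4 ^ n := by ring
      _ ≤ C * 4 ^ n := by gcongr
  linarith

end Pool.Agent.H54B
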